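import Mathlib

set_option autoImplicit false

/-!
Sums of `|G| - 1` terms of a long sequence in a finite abelian group: if no such sum is zero then
all but few terms lie in a coset (different from the subgroup) of a subgroup.
-/

namespace Pool.Agent.Helper65.ZR

open Finset
open scoped Pointwise

set_option linter.unusedSectionVars false

variable {G : Type*} [AddCommGroup G] [DecidableEq G]

/-- periods of a finite set -/
def stab (C : Finset G) : AddSubgroup G where
  carrier := {g | ∀ x, x ∈ C ↔ x + g ∈ C}
  zero_mem' := by intro x; simp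
  add_mem' := by
    intro a b ha hb x
    rw [← add_assoc, ← hb, ← ha]
  neg_mem' := by
    intro a ha x
    rw [ha (x + -a)]
    simp

lemma mem_stab {C : Finset G} {g : G} : g ∈ stab C ↔ ∀ x, x ∈ C ↔ x + g ∈ C := Iff.rfl

lemma mem_stab_of_card {C : Finset G} {d : G} (h : ∀ x ∈ C, x + d ∈ C) : d ∈ stab C := by
  have h1 : C.map (addRightEmbedding d) ⊆ C := by
    intro y hy
    rw [Finset.mem_map] at hy
    obtain ⟨x, hx, rfl⟩ := hy
    exact h x hx
  have h2 : C.map (addRightEmbedding d) = C :=
    Finset.eq_of_subset_of_card_le h1 (by rw [Finset.card_map])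
  intro x
  constructor
  · exact h x
  · intro hx
    rw [← h2, Finset.mem_map] at hx
    obtain ⟨y, hy, hyx⟩ := hx
    have : y = x := add_right_cancel hyx
    rwa [this] at hy

lemma stab_add_singleton (C : Finset G) (t : G) : stab (C + {t}) = stab C := by
  have h : ∀ x, x ∈ C + {t} ↔ x - t ∈ C := by
    intro x
    rw [Finset.mem_add]
    constructor
    · rintro ⟨y, hy, z, hz, rfl⟩
      rw [Finset.mem_singleton] at hz
      subst hz
      simpa using hy
    · intro hx
      exact ⟨x - t, hx, t, Finset.mem_singleton_self t, sub_add_cancel _ _⟩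
  ext g
  rw [mem_stab, mem_stab]
  constructor
  · intro hg x
    have := hg (x + t)
    rw [h, h] at this
    rwa [add_sub_cancel_right, show x + t + g - t = x + g by abel] at this
  · intro hg x
    rw [h, h, hg (x - t)]
    rw [show x - t + g = x + g - t by abel]

lemma add_pair_eq {F : Finset G} {a b : G} (h : b - a ∈ stab F) : F + {a, b} = F + {a} := by
  ext x
  rw [Finset.mem_add, Finset.mem_add]
  constructor
  · rintro ⟨y, hy, z, hz, rfl⟩
    rw [Finset.mem_insert, Finset.mem_singleton] at hz
    rcases hz with rfl | rfl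
    · exact ⟨y, hy, z, Finset.mem_singleton_self z, rfl⟩
    · refine ⟨y + (z - a), (h y).1 hy, a, Finset.mem_singleton_self a, by abel⟩
  · rintro ⟨y, hy, z, hz, rfl⟩
    rw [Finset.mem_singleton] at hz
    subst hz
    exact ⟨y, hy, z, by simp, rfl⟩

/-- sumset of pairs -/
def PS {κ : Type*} (x y : κ → G) (J : Finset κ) : Finset G := ∑ j ∈ J, ({x j, y j} : Finset G)

lemma PS_nonempty {κ : Type*} (x y : κ → G) (J : Finset κ) : (PS x y J).Nonempty := by
  classical
  unfold PS
  induction J using Finset.induction_on with
  | empty => exact ⟨0, by simp⟩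
  | insert a s ha ih =>
    rw [Finset.sum_insert ha]
    exact Finset.Nonempty.add (by simp) ih

lemma mem_PS {κ : Type*} [DecidableEq κ] (x y : κ → G) (J : Finset κ) (t : G) :
    t ∈ PS x y J ↔ ∃ T ⊆ J, ∑ j ∈ T, x j + ∑ j ∈ J \ T, y j = t := by
  unfold PS
  induction J using Finset.induction_on generalizing t with
  | empty =>
    simp only [Finset.sum_empty, Finset.subset_empty]
    constructor
    · intro h
      rw [Finset.mem_zero] at h
      exact ⟨∅, rfl, by simp [h]⟩
    · rintro ⟨T, rfl, h⟩
      simp at h
      simp [← h]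
  | insert a s ha ih =>
    rw [Finset.sum_insert ha, Finset.mem_add]
    constructor
    · rintro ⟨z, hz, w, hw, rfl⟩
      obtain ⟨T, hT, rfl⟩ := (ih w).1 hw
      have haT : a ∉ T := fun h => ha (hT h)
      rw [Finset.mem_insert, Finset.mem_singleton] at hz
      rcases hz with rfl | rfl
      · refine ⟨insert a T, Finset.insert_subset_insert _ hT, ?_⟩
        rw [Finset.sum_insert haT]
        have : insert a s \ insert a T = s \ T := by
          ext b
          simp only [Finset.mem_sdiff, Finset.mem_insert]
          constructor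
          · rintro ⟨h1 | h1, h2⟩
            · exact absurd (Or.inl h1) h2
            · exact ⟨h1, fun h => h2 (Or.inr h)⟩
          · rintro ⟨h1, h2⟩
            refine ⟨Or.inr h1, ?_⟩
            rintro (h | h)
            · exact ha (h ▸ h1)
            · exact h2 h
        rw [this]
        abel
      · refine ⟨T, hT.trans (Finset.subset_insert _ _), ?_⟩
        have : insert a s \ T = insert a (s \ T) := by
          rw [Finset.insert_sdiff_of_notMem _ haT]
        rw [this, Finset.sum_insert (by simp [ha])]
        abel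
    · rintro ⟨T, hT, rfl⟩
      by_cases haT : a ∈ T
      · refine ⟨x a, by simp, ∑ j ∈ T.erase a, x j + ∑ j ∈ s \ T.erase a, y j,
          (ih _).2 ⟨T.erase a, ?_, rfl⟩, ?_⟩
        · intro b hb
          rw [Finset.mem_erase] at hb
          exact (Finset.mem_insert.1 (hT hb.2)).resolve_left hb.1
        · have h1 : s \ T.erase a = insert a s \ T := by
            ext b
            simp only [Finset.mem_sdiff, Finset.mem_insert, Finset.mem_erase]
            constructor
            · rintro ⟨h1, h2⟩
              refine ⟨Or.inr h1, fun h => h2 ⟨?_, h⟩⟩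
              rintro rfl
              exact ha h1
            · rintro ⟨h1 | h1, h2⟩
              · subst h1
                exact absurd haT h2
              · exact ⟨h1, fun h => h2 h.2⟩
          rw [h1, ← Finset.add_sum_erase T x haT]
          abel
      · have hT' : T ⊆ s := by
          intro b hb
          refine (Finset.mem_insert.1 (hT hb)).resolve_left ?_
          rintro rfl
          exact haT hb
        refine ⟨y a, by simp, ∑ j ∈ T, x j + ∑ j ∈ s \ T, y j, (ih _).2 ⟨T, hT', rfl⟩, ?_⟩
        rw [Finset.insert_sdiff_of_notMem _ haT, Finset.sum_insert (by simp [ha])]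
        abel

lemma add_PS_eq {κ : Type*} [DecidableEq κ] (x y : κ → G) (F : Finset G) (J : Finset κ)
    (h : ∀ j ∈ J, y j - x j ∈ stab F) : F + PS x y J = F + {∑ j ∈ J, x j} := by
  induction J using Finset.induction_on with
  | empty =>
    rw [PS, Finset.sum_empty, Finset.sum_empty, Finset.singleton_zero]
  | insert a s ha ih =>
    have h1 := ih fun j hj => h j (Finset.mem_insert_of_mem hj)
    unfold PS at h1 ⊢
    have h2 : F + {∑ j ∈ s, x j} + {x a, y a} = F + {∑ j ∈ s, x j} + {x a} := by
      apply add_pair_eq
      rw [stab_add_singleton]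
      exact h a (Finset.mem_insert_self a s)
    calc F + ∑ j ∈ insert a s, ({x j, y j} : Finset G)
        = (F + ∑ j ∈ s, ({x j, y j} : Finset G)) + {x a, y a} := by
          rw [Finset.sum_insert ha]; abel
      _ = F + {∑ j ∈ s, x j} + {x a} := by rw [h1, h2]
      _ = F + ({∑ j ∈ s, x j} + {x a}) := by rw [add_assoc]
      _ = _ := by
          rw [Finset.singleton_add_singleton, Finset.sum_insert ha, add_comm (x a)]

variable [Fintype G]

/-- a subgroup as a finite set -/
noncomputable def Kf (K : AddSubgroup G) : Finset G := by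
  classical exact Finset.univ.filter (fun g => g ∈ K)

lemma mem_Kf {K : AddSubgroup G} {g : G} : g ∈ Kf K ↔ g ∈ K := by
  classical
  simp [Kf]

lemma card_Kf (K : AddSubgroup G) : (Kf K).card = Nat.card K := by
  classical
  rw [Nat.card_eq_fintype_card, Fintype.card_subtype]
  rfl

lemma le_stab_Kf_add (K : AddSubgroup G) (A : Finset G) : K ≤ stab (Kf K + A) := by
  intro g hg
  apply mem_stab_of_card
  intro x hx
  rw [Finset.mem_add] at hx ⊢
  obtain ⟨k, hk, a, ha, rfl⟩ := hx
  exact ⟨k + g, mem_Kf.2 (K.add_mem (mem_Kf.1 hk) hg), a, ha, by abel⟩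

lemma card_lt_periodic {K : AddSubgroup G} {C C' : Finset G} (hCC : C ⊆ C') (hne : C ≠ C')
    (hK : K ≤ stab C) (hK' : K ≤ stab C') : C.card + Nat.card K ≤ C'.card := by
  classical
  obtain ⟨x, hx, hxC⟩ : ∃ x ∈ C', x ∉ C := by
    by_contra hcon
    push Not at hcon
    exact hne (Finset.Subset.antisymm hCC hcon)
  have h1 : Disjoint C ((Kf K).map (addLeftEmbedding x)) := by
    rw [Finset.disjoint_right]
    intro y hy hyC
    rw [Finset.mem_map] at hy
    obtain ⟨k, hk, rfl⟩ := hy
    exact hxC ((hK (mem_Kf.1 hk) x).2 hyC)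
  have h2 : C ∪ (Kf K).map (addLeftEmbedding x) ⊆ C' := by
    apply Finset.union_subset hCC
    intro y hy
    rw [Finset.mem_map] at hy
    obtain ⟨k, hk, rfl⟩ := hy
    exact (hK' (mem_Kf.1 hk) x).1 hx
  have h3 := Finset.card_le_card h2
  rwa [Finset.card_union_of_disjoint h1, Finset.card_map, card_Kf] at h3

lemma card_add_singleton (F : Finset G) (t : G) : (F + {t}).card = F.card := by
  simp

lemma greedy {κ : Type*} [DecidableEq κ] (K : AddSubgroup G) (x y : κ → G) (I : Finset κ) :
    ∃ J ⊆ I, (J.card + 1) * Nat.card K ≤ (Kf K + PS x y J).card ∧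
      ∀ j ∈ I, j ∉ J → y j - x j ∈ stab (Kf K + PS x y J) := by
  classical
  obtain ⟨J, hJ, hmax⟩ := Finset.exists_max_image
    (I.powerset.filter fun J => (J.card + 1) * Nat.card K ≤ (Kf K + PS x y J).card)
    Finset.card ⟨∅, by
      rw [Finset.mem_filter]
      refine ⟨Finset.empty_mem_powerset I, ?_⟩
      rw [PS, Finset.sum_empty, add_zero, card_Kf]
      simp⟩
  rw [Finset.mem_filter, Finset.mem_powerset] at hJ
  refine ⟨J, hJ.1, hJ.2, ?_⟩
  intro j hjI hjJ
  by_contra hd
  set F := Kf K + PS x y J with hF
  have hF' : Kf K + PS x y (insert j J) = F + {x j, y j} := by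
    rw [hF, PS, PS, Finset.sum_insert hjJ]
    abel
  have h1 : F + {x j} ⊆ F + {x j, y j} :=
    Finset.add_subset_add_left (by simp)
  have h2 : F + {x j} ≠ F + {x j, y j} := by
    intro h
    apply hd
    apply mem_stab_of_card
    intro z hz
    have h3 : z + y j ∈ F + {x j} := by
      rw [h]
      exact Finset.add_mem_add hz (by simp)
    rw [Finset.mem_add] at h3
    obtain ⟨w, hw, u, hu, hwu⟩ := h3
    rw [Finset.mem_singleton] at hu
    subst hu
    have : z + (y j - x j) = w := by
      rw [← add_sub_assoc, ← hwu, add_sub_cancel_right]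
    rwa [this]
  have hK1 : K ≤ stab (F + {x j}) := by
    rw [stab_add_singleton]
    exact le_stab_Kf_add K _
  have hK2 : K ≤ stab (F + {x j, y j}) := by
    rw [← hF']
    exact le_stab_Kf_add K _
  have h4 := card_lt_periodic h1 h2 hK1 hK2
  rw [card_add_singleton] at h4
  have h5 := hmax (insert j J) (by
    rw [Finset.mem_filter, Finset.mem_powerset]
    refine ⟨Finset.insert_subset hjI hJ.1, ?_⟩
    rw [Finset.card_insert_of_notMem hjJ, hF']
    have := hJ.2
    rw [add_mul, one_mul] at this ⊢
    rw [add_mul, one_mul]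
    omega)
  rw [Finset.card_insert_of_notMem hjJ] at h5
  omega

end Pool.Agent.Helper65.ZR
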