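import Mathlib
import Pool.Agent.Helper65.ZR.Pairs

set_option autoImplicit false

/-!
The structure of sequences without zero-sum subsequence of length `|G| - 1`.
-/

namespace Pool.Agent.Helper65.ZR

open Finset
open scoped Pointwise

set_option linter.unusedSectionVars false

variable {G : Type*} [AddCommGroup G] [DecidableEq G]

lemma card_lt_add_pair {F : Finset G} {a b : G} (h : b - a ∉ stab F) :
    F.card < (F + {a, b}).card := by
  by_contra hcon
  push Not at hcon
  have h1 : F + {a} ⊆ F + {a, b} := Finset.add_subset_add_left (by simp)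
  have h2 : F + {a} = F + {a, b} :=
    Finset.eq_of_subset_of_card_le h1 (by rw [Finset.card_add_singleton]; exact hcon)
  apply h
  apply mem_stab_of_card
  intro z hz
  have h3 : z + b ∈ F + {a} := by
    rw [h2]
    exact Finset.add_mem_add hz (by simp)
  rw [Finset.mem_add] at h3
  obtain ⟨w, hw, u, hu, hwu⟩ := h3
  rw [Finset.mem_singleton] at hu
  subst hu
  have : z + (b - u) = w := by
    rw [← add_sub_assoc, ← hwu, add_sub_cancel_right]
  rwa [this]

lemma rearrange {ι κ : Type*} [DecidableEq ι] (e : κ ↪ ι) (A : Set κ) {a b : κ} (hab : a ≠ b)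
    (ha : a ∉ A) (hb : b ∉ A) {u v : ι} (huv : u ≠ v) (hu : ∀ c ∈ A, e c ≠ u)
    (hv : ∀ c ∈ A, e c ≠ v) :
    ∃ e' : κ ↪ ι, (∀ c ∈ A, e' c = e c) ∧ e' a = u ∧ e' b = v := by
  set π1 : Equiv.Perm ι := Equiv.swap (e a) u with hπ1
  set π2 : Equiv.Perm ι := Equiv.swap (π1 (e b)) v with hπ2
  refine ⟨e.trans (π1.trans π2).toEmbedding, ?_, ?_, ?_⟩
  · intro c hc
    have h1 : π1 (e c) = e c := by
      rw [hπ1]
      apply Equiv.swap_apply_of_ne_of_ne
      · intro h
        exact ha (e.injective h ▸ hc)
      · exact hu c hc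
    show π2 (π1 (e c)) = e c
    rw [h1, hπ2]
    apply Equiv.swap_apply_of_ne_of_ne
    · intro h
      have : π1 (e c) = π1 (e b) := by rw [h1]; exact h
      exact hb (e.injective (π1.injective this) ▸ hc)
    · exact hv c hc
  · show π2 (π1 (e a)) = u
    have h1 : π1 (e a) = u := by rw [hπ1, Equiv.swap_apply_left]
    rw [h1, hπ2]
    apply Equiv.swap_apply_of_ne_of_ne
    · intro h
      apply hab
      apply e.injective
      apply π1.injective
      rw [h1, h]
    · exact huv
  · show π2 (π1 (e b)) = v
    rw [hπ2, Equiv.swap_apply_left]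

lemma PS_congr {κ : Type*} {x y x' y' : κ → G} {J : Finset κ} (hx : ∀ j ∈ J, x j = x' j)
    (hy : ∀ j ∈ J, y j = y' j) : PS x y J = PS x' y' J := by
  unfold PS
  apply Finset.sum_congr rfl
  intro j hj
  rw [hx j hj, hy j hj]

lemma PS_split {κ : Type*} [DecidableEq κ] (x y : κ → G) {J I : Finset κ} (h : J ⊆ I) :
    PS x y I = PS x y J + PS x y (I \ J) := by
  unfold PS
  rw [← Finset.sum_sdiff h, add_comm]

lemma PS_erase {κ : Type*} [DecidableEq κ] (x y : κ → G) {I : Finset κ} {j : κ} (h : j ∈ I) :
    PS x y I = {x j, y j} + PS x y (I.erase j) := by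
  exact (Finset.add_sum_erase I (fun j => ({x j, y j} : Finset G)) h).symm

variable [Fintype G]

theorem pairing {ι : Type*} [Fintype ι] (s : ι → G) (k : ℕ)
    (hk : Fintype.card G = k + 1) (hι : 2 * k ≤ Fintype.card ι)
    (h0 : ∀ T : Finset ι, T.card = k → ∑ i ∈ T, s i ≠ 0) :
    ∃ (K : AddSubgroup G) (g : G), g ∉ K ∧
      (Nat.card {i // s i - g ∉ K} + 2) * Nat.card K ≤ Fintype.card G := by
  classical
  -- configurations
  let X : (Fin k ⊕ Fin k ↪ ι) → Fin k → G := fun e j => s (e (Sum.inl j))
  let Y : (Fin k ⊕ Fin k ↪ ι) → Fin k → G := fun e j => s (e (Sum.inr j))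
  let CC : (Fin k ⊕ Fin k ↪ ι) → Finset G := fun e => PS (X e) (Y e) Finset.univ
  let NN : (Fin k ⊕ Fin k ↪ ι) → Finset (Fin k) := fun e =>
    Finset.univ.filter fun j => Y e j - X e j ∉ stab (CC e)
  let f : (Fin k ⊕ Fin k ↪ ι) → ℕ := fun e => (CC e).card * (k + 1) + (NN e).card
  have hNk : ∀ e, (NN e).card ≤ k := fun e =>
    (Finset.card_le_univ _).trans (by rw [Fintype.card_fin])
  have : Nonempty (Fin k ⊕ Fin k ↪ ι) := by
    apply Function.Embedding.nonempty_of_card_le
    rw [Fintype.card_sum, Fintype.card_fin]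
    omega
  obtain ⟨e, he⟩ := Finite.exists_max f
  set x : Fin k → G := X e with hx
  set y : Fin k → G := Y e with hy
  set C : Finset G := CC e with hC
  have hCdef : C = PS x y Finset.univ := rfl
  set K : AddSubgroup G := stab C with hK
  have hNe : NN e = Finset.univ.filter fun j => y j - x j ∉ K := rfl
  -- 0 is not in C
  have h0C : (0 : G) ∉ C := by
    intro h
    rw [hCdef, mem_PS] at h
    obtain ⟨T, _, hT⟩ := h
    have hdis : Disjoint (T.map ⟨fun j => e (Sum.inl j), fun a b h => Sum.inl_injective (e.injective h)⟩)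
        ((Finset.univ \ T).map ⟨fun j => e (Sum.inr j), fun a b h => Sum.inr_injective (e.injective h)⟩) := by
      rw [Finset.disjoint_left]
      intro a ha hb
      rw [Finset.mem_map] at ha hb
      obtain ⟨i, _, hi⟩ := ha
      obtain ⟨j, _, hj⟩ := hb
      have : e (Sum.inl i) = e (Sum.inr j) := hi.trans hj.symm
      exact absurd (e.injective this) (by simp)
    apply h0 (T.map ⟨fun j => e (Sum.inl j), fun a b h => Sum.inl_injective (e.injective h)⟩ ∪
      (Finset.univ \ T).map ⟨fun j => e (Sum.inr j), fun a b h => Sum.inr_injective (e.injective h)⟩)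
    · rw [Finset.card_union_of_disjoint hdis, Finset.card_map, Finset.card_map,
        Finset.card_univ_sdiff, Fintype.card_fin]
      have := Finset.card_le_univ T
      rw [Fintype.card_fin] at this
      omega
    · rw [Finset.sum_union hdis, Finset.sum_map, Finset.sum_map]
      exact hT
  have hCne : C ≠ Finset.univ := fun h => h0C (h ▸ Finset.mem_univ 0)
  have hCK : C.card + Nat.card K ≤ k + 1 := by
    have := card_lt_periodic (K := K) (Finset.subset_univ C) hCne le_rfl (by
      intro g _ z
      simp)
    rwa [Finset.card_univ, hk] at this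
  have hKpos : 1 ≤ Nat.card K := Nat.card_pos
  -- greedy
  obtain ⟨J, -, hJ1, hJ2⟩ := greedy (⊥ : AddSubgroup G) x y Finset.univ
  have hbot : Kf (⊥ : AddSubgroup G) + PS x y J = PS x y J := by
    have : Kf (⊥ : AddSubgroup G) = 0 := by
      ext g
      rw [mem_Kf, AddSubgroup.mem_bot, Finset.mem_zero]
    rw [this, zero_add]
  rw [hbot, AddSubgroup.card_bot, mul_one] at hJ1
  rw [hbot] at hJ2
  have hCJ : C = PS x y J + {∑ j ∈ Finset.univ \ J, x j} := by
    rw [hCdef, PS_split x y (Finset.subset_univ J)]
    apply add_PS_eq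
    intro j hj
    rw [Finset.mem_sdiff] at hj
    exact hJ2 j (Finset.mem_univ j) hj.2
  have hstabJ : stab (PS x y J) = K := by
    rw [hK, hCJ, stab_add_singleton]
  have hcardJ : (PS x y J).card = C.card := by
    rw [hCJ, Finset.card_add_singleton]
  have hJK : J.card + Nat.card K ≤ k := by omega
  obtain ⟨j0, hj0⟩ : ∃ j0, j0 ∉ J := by
    by_contra hcon
    push Not at hcon
    have : J = Finset.univ := Finset.eq_univ_iff_forall.2 hcon
    rw [this, Finset.card_univ, Fintype.card_fin] at hJK
    omega
  -- the free elements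
  have hfree : ∀ u v : ι, u ≠ v → (∀ j ∈ J, e (Sum.inl j) ≠ u ∧ e (Sum.inr j) ≠ u) →
      (∀ j ∈ J, e (Sum.inl j) ≠ v ∧ e (Sum.inr j) ≠ v) →
      ∃ e' : Fin k ⊕ Fin k ↪ ι, (∀ j ∈ J, e' (Sum.inl j) = e (Sum.inl j) ∧
        e' (Sum.inr j) = e (Sum.inr j)) ∧ e' (Sum.inl j0) = u ∧ e' (Sum.inr j0) = v := by
    intro u v huv hu hv
    obtain ⟨e', h1, h2, h3⟩ := rearrange e
      {c | ∃ j ∈ J, c = Sum.inl j ∨ c = Sum.inr j} (a := Sum.inl j0) (b := Sum.inr j0)
      (by simp) (by
        rintro ⟨j, hj, h | h⟩
        · rw [Sum.inl.injEq] at h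
          exact hj0 (h ▸ hj)
        · exact absurd h (by simp)) (by
        rintro ⟨j, hj, h | h⟩
        · exact absurd h (by simp)
        · rw [Sum.inr.injEq] at h
          exact hj0 (h ▸ hj)) huv (by
        rintro c ⟨j, hj, rfl | rfl⟩
        · exact (hu j hj).1
        · exact (hu j hj).2) (by
        rintro c ⟨j, hj, rfl | rfl⟩
        · exact (hv j hj).1
        · exact (hv j hj).2)
    exact ⟨e', fun j hj => ⟨h1 _ ⟨j, hj, Or.inl rfl⟩, h1 _ ⟨j, hj, Or.inr rfl⟩⟩, h2, h3⟩
  have hj0' : j0 ∈ Finset.univ \ J := by simp [hj0]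
  -- step 3
  have hR : ∀ u v : ι, (∀ j ∈ J, e (Sum.inl j) ≠ u ∧ e (Sum.inr j) ≠ u) →
      (∀ j ∈ J, e (Sum.inl j) ≠ v ∧ e (Sum.inr j) ≠ v) → s v - s u ∈ K := by
    intro u v hu hv
    by_contra hcon
    have huv : u ≠ v := by
      rintro rfl
      rw [sub_self] at hcon
      exact hcon K.zero_mem
    obtain ⟨e', h1, h2, h3⟩ := hfree u v huv hu hv
    have h4 : CC e' = (PS x y J + {s u, s v}) + PS (X e') (Y e') ((Finset.univ \ J).erase j0) := by
      show PS (X e') (Y e') Finset.univ = _
      rw [PS_split (X e') (Y e') (Finset.subset_univ J), PS_erase (X e') (Y e') hj0',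
        ← add_assoc]
      congr 2
      · apply PS_congr
        · intro j hj
          show s (e' _) = s (e _)
          rw [(h1 j hj).1]
        · intro j hj
          show s (e' _) = s (e _)
          rw [(h1 j hj).2]
      · show ({s (e' _), s (e' _)} : Finset G) = _
        rw [h2, h3]
    have h5 : (PS x y J).card < (PS x y J + {s u, s v}).card := by
      apply card_lt_add_pair
      rw [hstabJ]
      exact hcon
    have h6 : (PS x y J + {s u, s v}).card ≤ (CC e').card := by
      rw [h4]
      exact Finset.card_le_card_add_right (PS_nonempty _ _ _)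
    have h7 := he e'
    have h8 : C.card + 1 ≤ (CC e').card := by omega
    have h9 : (C.card + 1) * (k + 1) ≤ (CC e').card * (k + 1) := Nat.mul_le_mul_right _ h8
    have h10 : (CC e').card * (k + 1) + (NN e').card ≤ C.card * (k + 1) + (NN e).card := h7
    have h11 := hNk e
    rw [add_mul, one_mul] at h9
    omega
  -- step 4
  set R : Finset ι := Finset.univ.filter fun u =>
    ∀ j ∈ J, e (Sum.inl j) ≠ u ∧ e (Sum.inr j) ≠ u with hRdef
  have hRcard : 2 * Nat.card K ≤ R.card := by
    have h1 : (Finset.univ : Finset ι) ⊆ R ∪ (J.image (fun j => e (Sum.inl j)) ∪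
        J.image (fun j => e (Sum.inr j))) := by
      intro u _
      rw [Finset.mem_union, Finset.mem_union]
      by_cases hu : u ∈ R
      · exact Or.inl hu
      · right
        rw [hRdef, Finset.mem_filter] at hu
        push Not at hu
        obtain ⟨j, hj, h⟩ := hu (Finset.mem_univ u)
        by_cases h' : e (Sum.inl j) = u
        · left
          exact Finset.mem_image.2 ⟨j, hj, h'⟩
        · right
          exact Finset.mem_image.2 ⟨j, hj, h h'⟩
    have h2 := Finset.card_le_card h1
    have h3 := Finset.card_union_le R (J.image (fun j => e (Sum.inl j)) ∪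
        J.image (fun j => e (Sum.inr j)))
    have h4 := Finset.card_union_le (J.image (fun j => e (Sum.inl j)))
        (J.image (fun j => e (Sum.inr j)))
    have h5 := Finset.card_image_le (s := J) (f := fun j => e (Sum.inl j))
    have h6 := Finset.card_image_le (s := J) (f := fun j => e (Sum.inr j))
    rw [Finset.card_univ] at h2
    omega
  have hRne : R.Nonempty := by
    rw [← Finset.card_pos]
    omega
  obtain ⟨r0, hr0⟩ := hRne
  obtain ⟨r, hr, r', hr', hrr, hsr⟩ : ∃ r ∈ R, ∃ r' ∈ R, r ≠ r' ∧ s r = s r' := by
    apply Finset.exists_ne_map_eq_of_card_lt_of_maps_to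
      (t := (Kf K).map (addLeftEmbedding (s r0)))
    · rw [Finset.card_map, card_Kf]
      omega
    · intro u hu
      rw [Finset.mem_coe, Finset.mem_map]
      refine ⟨s u - s r0, mem_Kf.2 (hR r0 u (Finset.mem_filter.1 hr0).2
        (Finset.mem_filter.1 hu).2), ?_⟩
      show s r0 + (s u - s r0) = s u
      abel
  have hr1 := (Finset.mem_filter.1 hr).2
  have hr2 := (Finset.mem_filter.1 hr').2
  -- step 5
  have h5 : ∀ j ∈ J, ¬ (x j - s r ∉ K ∧ y j - s r ∉ K) := by
    rintro j hj ⟨ha, hb⟩
    obtain ⟨e1, g1, g2, g3⟩ := hfree r r' hrr hr1 hr2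
    set e2 : Fin k ⊕ Fin k ↪ ι := e1.trans (Equiv.swap (e (Sum.inr j)) r).toEmbedding with he2
    have a1 : ∀ i ∈ J, e2 (Sum.inl i) = e (Sum.inl i) := by
      intro i hi
      show Equiv.swap (e (Sum.inr j)) r (e1 (Sum.inl i)) = _
      rw [(g1 i hi).1]
      apply Equiv.swap_apply_of_ne_of_ne
      · intro h
        exact absurd (e.injective h) (by simp)
      · exact (hr1 i hi).1
    have a2 : ∀ i ∈ J, i ≠ j → e2 (Sum.inr i) = e (Sum.inr i) := by
      intro i hi hij
      show Equiv.swap (e (Sum.inr j)) r (e1 (Sum.inr i)) = _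
      rw [(g1 i hi).2]
      apply Equiv.swap_apply_of_ne_of_ne
      · intro h
        exact hij (Sum.inr_injective (e.injective h))
      · exact (hr1 i hi).2
    have a3 : e2 (Sum.inr j) = r := by
      show Equiv.swap (e (Sum.inr j)) r (e1 (Sum.inr j)) = _
      rw [(g1 j hj).2, Equiv.swap_apply_left]
    have a4 : e2 (Sum.inl j0) = e (Sum.inr j) := by
      show Equiv.swap (e (Sum.inr j)) r (e1 (Sum.inl j0)) = _
      rw [g2, Equiv.swap_apply_right]
    have a5 : e2 (Sum.inr j0) = r' := by
      show Equiv.swap (e (Sum.inr j)) r (e1 (Sum.inr j0)) = _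
      rw [g3]
      apply Equiv.swap_apply_of_ne_of_ne
      · exact fun h => (hr2 j hj).2 h.symm
      · exact hrr.symm
    have c1 : CC e2 = (PS x y (J.erase j) + ({x j, s r} + {y j, s r'})) +
        PS (X e2) (Y e2) ((Finset.univ \ J).erase j0) := by
      show PS (X e2) (Y e2) Finset.univ = _
      rw [PS_split (X e2) (Y e2) (Finset.subset_univ J), PS_erase (X e2) (Y e2) hj0',
        PS_erase (X e2) (Y e2) hj]
      have d1 : PS (X e2) (Y e2) (J.erase j) = PS x y (J.erase j) := by
        apply PS_congr
        · intro i hi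
          show s (e2 _) = s (e _)
          rw [a1 i (Finset.mem_of_mem_erase hi)]
        · intro i hi
          show s (e2 _) = s (e _)
          rw [a2 i (Finset.mem_of_mem_erase hi) (Finset.ne_of_mem_erase hi)]
      have d2 : ({X e2 j, Y e2 j} : Finset G) = {x j, s r} := by
        show ({s (e2 _), s (e2 _)} : Finset G) = _
        rw [a1 j hj, a3]
      have d3 : ({X e2 j0, Y e2 j0} : Finset G) = {y j, s r'} := by
        show ({s (e2 _), s (e2 _)} : Finset G) = _
        rw [a4, a5]
      rw [d1, d2, d3]
      abel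
    obtain ⟨τ, hτ⟩ := PS_nonempty (X e2) (Y e2) ((Finset.univ \ J).erase j0)
    have c2 : PS x y J + {s r + τ} ⊆ CC e2 := by
      rw [c1, PS_erase x y hj]
      have d1 : ({x j, y j} : Finset G) + {s r} ⊆ {x j, s r} + {y j, s r'} := by
        intro z hz
        rw [Finset.mem_add] at hz
        obtain ⟨a, ha', b, hb', rfl⟩ := hz
        rw [Finset.mem_singleton] at hb'
        subst hb'
        rw [Finset.mem_insert, Finset.mem_singleton] at ha'
        rcases ha' with rfl | rfl
        · rw [hsr]
          exact Finset.add_mem_add (by simp) (by simp)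
        · rw [add_comm]
          exact Finset.add_mem_add (by simp) (by simp)
      rw [← Finset.singleton_add_singleton, ← add_assoc, add_comm ({x j, y j} : Finset G),
        add_assoc (PS x y (J.erase j))]
      exact Finset.add_subset_add (Finset.add_subset_add_left d1)
        (Finset.singleton_subset_iff.2 hτ)
    have c3 : C.card ≤ (CC e2).card := by
      have := Finset.card_le_card c2
      rwa [Finset.card_add_singleton, hcardJ] at this
    have c4 : (CC e2).card * (k + 1) + (NN e2).card ≤ C.card * (k + 1) + (NN e).card := he e2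
    have c5 : (CC e2).card = C.card := by
      by_contra hne
      have h8 : C.card + 1 ≤ (CC e2).card := by omega
      have h9 : (C.card + 1) * (k + 1) ≤ (CC e2).card * (k + 1) := Nat.mul_le_mul_right _ h8
      have h11 := hNk e
      rw [add_mul, one_mul] at h9
      omega
    have c6 : CC e2 = PS x y J + {s r + τ} := by
      symm
      apply Finset.eq_of_subset_of_card_le c2
      rw [Finset.card_add_singleton, hcardJ, c5]
    have c7 : stab (CC e2) = K := by
      rw [c6, stab_add_singleton, hstabJ]
    have c8 : insert j0 (NN e) ⊆ NN e2 := by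
      intro i hi
      rw [Finset.mem_insert] at hi
      rw [Finset.mem_filter]
      refine ⟨Finset.mem_univ i, ?_⟩
      rw [c7]
      rcases hi with rfl | hi
      · show s (e2 _) - s (e2 _) ∉ K
        rw [a4, a5, ← hsr]
        intro h
        apply hb
        have := K.neg_mem h
        rwa [neg_sub] at this
      · rw [hNe, Finset.mem_filter] at hi
        have hiJ : i ∈ J := by
          by_contra hiJ
          apply hi.2
          rw [← hstabJ]
          exact hJ2 i (Finset.mem_univ i) hiJ
        by_cases hij : i = j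
        · subst hij
          show s (e2 _) - s (e2 _) ∉ K
          rw [a1 i hiJ, a3]
          intro h
          apply ha
          have := K.neg_mem h
          rwa [neg_sub] at this
        · show s (e2 _) - s (e2 _) ∉ K
          rw [a1 i hiJ, a2 i hiJ hij]
          exact hi.2
    have c9 : j0 ∉ NN e := by
      rw [hNe, Finset.mem_filter]
      push Not
      intro _
      rw [← hstabJ]
      exact hJ2 j0 (Finset.mem_univ _) hj0
    have c10 := Finset.card_le_card c8
    rw [Finset.card_insert_of_notMem c9] at c10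
    rw [c5] at c4
    omega
  -- step 6
  have h6 : ((NN e).card + 1) * Nat.card K ≤ C.card := by
    obtain ⟨JK, -, hJK1, hJK2⟩ := greedy K x y Finset.univ
    have b1 : Kf K + C = C := by
      ext z
      rw [Finset.mem_add]
      constructor
      · rintro ⟨a, ha, b, hb, rfl⟩
        rw [add_comm]
        exact (mem_Kf.1 ha b).1 hb
      · intro hz
        exact ⟨0, mem_Kf.2 K.zero_mem, z, hz, zero_add z⟩
    have b2 : C = (Kf K + PS x y JK) + {∑ j ∈ Finset.univ \ JK, x j} := by
      rw [← b1, hCdef, PS_split x y (Finset.subset_univ JK), ← add_assoc]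
      apply add_PS_eq
      intro j hj
      rw [Finset.mem_sdiff] at hj
      exact hJK2 j (Finset.mem_univ j) hj.2
    have b3 : stab (Kf K + PS x y JK) = K := by
      have := stab_add_singleton (Kf K + PS x y JK) (∑ j ∈ Finset.univ \ JK, x j)
      rw [← this, ← b2]
    have b4 : (Kf K + PS x y JK).card = C.card := by
      have := Finset.card_add_singleton (Kf K + PS x y JK) (∑ j ∈ Finset.univ \ JK, x j)
      rw [← this, ← b2]
    have b5 : NN e ⊆ JK := by
      intro i hi
      rw [hNe, Finset.mem_filter] at hi
      by_contra hiJ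
      apply hi.2
      rw [← b3]
      exact hJK2 i (Finset.mem_univ i) hiJ
    have b6 := Finset.card_le_card b5
    rw [b4] at hJK1
    exact (Nat.mul_le_mul_right _ (by omega)).trans hJK1
  -- step 7
  have h7 : Nat.card {i // s i - s r ∉ K} ≤ (NN e).card := by
    rw [Nat.card_eq_fintype_card, Fintype.card_subtype]
    have d0 : ∀ i : ι, s i - s r ∉ K → ∃ j ∈ J, e (Sum.inl j) = i ∨ e (Sum.inr j) = i := by
      intro i hi
      by_contra hcon
      push Not at hcon
      exact hi (hR r i hr1 hcon)
    have : Nonempty (Fin k) := ⟨j0⟩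
    choose! φ hφ1 hφ2 using d0
    apply Finset.card_le_card_of_injOn φ
    · intro i hi
      rw [Finset.mem_coe, Finset.mem_filter] at hi
      rw [Finset.mem_coe, hNe, Finset.mem_filter]
      refine ⟨Finset.mem_univ _, ?_⟩
      intro hd
      apply h5 (φ i) (hφ1 i hi.2)
      rcases hφ2 i hi.2 with h | h
      · have e1 : x (φ i) = s i := by rw [hx]; show s (e _) = _; rw [h]
        refine ⟨by rw [e1]; exact hi.2, ?_⟩
        intro h'
        apply hi.2
        have := K.sub_mem h' hd
        rw [e1] at this
        rwa [show y (φ i) - s r - (y (φ i) - s i) = s i - s r by abel] at this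
      · have e1 : y (φ i) = s i := by rw [hy]; show s (e _) = _; rw [h]
        refine ⟨?_, by rw [e1]; exact hi.2⟩
        intro h'
        apply hi.2
        have := K.add_mem h' hd
        rw [e1] at this
        rwa [show x (φ i) - s r + (s i - x (φ i)) = s i - s r by abel] at this
    · intro i hi i' hi' hii
      rw [Finset.mem_coe, Finset.mem_filter] at hi hi'
      by_contra hne
      apply h5 (φ i) (hφ1 i hi.2)
      have p1 := hφ2 i hi.2
      have p2 := hφ2 i' hi'.2
      rw [← hii] at p2
      rcases p1 with p1 | p1 <;> rcases p2 with p2 | p2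
      · exact absurd (p1.symm.trans p2) hne
      · constructor
        · show s (e _) - s r ∉ K
          rw [p1]; exact hi.2
        · show s (e _) - s r ∉ K
          rw [p2]; exact hi'.2
      · constructor
        · show s (e _) - s r ∉ K
          rw [p2]; exact hi'.2
        · show s (e _) - s r ∉ K
          rw [p1]; exact hi.2
      · exact absurd (p1.symm.trans p2) hne
  refine ⟨K, s r, ?_, ?_⟩
  · intro hrK
    have q1 : ∀ j, x j ∈ K ∨ y j ∈ K := by
      intro j
      by_cases hj : j ∈ J
      · have := h5 j hj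
        rw [not_and_or, not_not, not_not] at this
        rcases this with h | h
        · left
          have := K.add_mem h hrK
          rwa [sub_add_cancel] at this
        · right
          have := K.add_mem h hrK
          rwa [sub_add_cancel] at this
      · left
        have : s (e (Sum.inl j)) - s r ∈ K := by
          apply hR r _ hr1
          intro i hi
          constructor
          · intro h
            exact hj ((Sum.inl_injective (e.injective h)) ▸ hi)
          · intro h
            exact absurd (e.injective h) (by simp)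
        have := K.add_mem this hrK
        rwa [sub_add_cancel] at this
    set T : Finset (Fin k) := Finset.univ.filter fun j => x j ∈ K with hT
    have q2 : ∑ j ∈ T, x j + ∑ j ∈ Finset.univ \ T, y j ∈ C := by
      rw [hCdef, mem_PS]
      exact ⟨T, Finset.subset_univ T, rfl⟩
    have q3 : ∑ j ∈ T, x j + ∑ j ∈ Finset.univ \ T, y j ∈ K := by
      apply K.add_mem
      · apply K.sum_mem
        intro j hj
        exact (Finset.mem_filter.1 hj).2
      · apply K.sum_mem
        intro j hj
        rw [Finset.mem_sdiff, hT, Finset.mem_filter] at hj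
        push Not at hj
        exact (q1 j).resolve_left (hj.2 (Finset.mem_univ j))
    have q4 := (K.neg_mem q3 _).1 q2
    rw [add_neg_cancel] at q4
    exact h0C q4
  · rw [hk]
    have w1 := Nat.mul_le_mul_right (Nat.card K) h7
    rw [add_mul]
    rw [add_mul, one_mul] at h6
    omega

end Pool.Agent.Helper65.ZR
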