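import Mathlib
import Pool.Agent.Helper65.ZR.Main

set_option autoImplicit false

/-!
Counting dominated edges in a coloured complete bipartite graph.
-/

namespace Pool.Agent.Helper65.ZR

open Finset

set_option linter.unusedSectionVars false

variable {G : Type*} [AddCommGroup G] [Fintype G]

/-- number of values outside the coset `g + K` -/
noncomputable def eta {Y : Type*} [Fintype Y] (h : Y → G) (K : AddSubgroup G) (g : G) : ℕ :=
  Nat.card {y // h y - g ∉ K}

/-- number of places with value `a` -/
noncomputable def num {Y : Type*} [Fintype Y] (h : Y → G) (a : G) : ℕ := Nat.card {y // h y = a}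

section row

variable {Y : Type*} [Fintype Y] (h : Y → G)

open Classical in
lemma eta_eq (K : AddSubgroup G) (g : G) :
    eta h K g = (Finset.univ.filter fun y => h y - g ∉ K).card := by
  rw [eta, Nat.card_eq_fintype_card, Fintype.card_subtype]

open Classical in
lemma num_eq (a : G) : num h a = (Finset.univ.filter fun y => h y = a).card := by
  rw [num, Nat.card_eq_fintype_card, Fintype.card_subtype]

lemma eta_bot (g : G) : eta h ⊥ g + num h g = Fintype.card Y := by
  classical
  rw [eta_eq, num_eq]
  have : (Finset.univ.filter fun y => h y - g ∉ (⊥ : AddSubgroup G)) =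
      Finset.univ.filter fun y => ¬ h y = g := by
    ext y
    rw [Finset.mem_filter, Finset.mem_filter, AddSubgroup.mem_bot, sub_eq_zero]
  rw [this, add_comm, Finset.card_filter_add_card_filter_not, Finset.card_univ]

lemma card_le_half {K L : AddSubgroup G} (hLK : L ≤ K) (hne : ¬ K ≤ L) :
    2 * Nat.card L ≤ Nat.card K := by
  have h1 : Nat.card L ∣ Nat.card K := AddSubgroup.card_dvd_of_le hLK
  obtain ⟨q, hq⟩ := h1
  have hL : 0 < Nat.card L := Nat.card_pos
  have hK : 0 < Nat.card K := Nat.card_pos
  have hq0 : q ≠ 0 := by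
    rintro rfl
    omega
  have hq1 : q ≠ 1 := by
    rintro rfl
    apply hne
    have : L = K := AddSubgroup.eq_of_le_of_card_ge hLK (by omega)
    exact this.ge
  have : 2 ≤ q := by omega
  calc 2 * Nat.card L = Nat.card L * 2 := mul_comm _ _
    _ ≤ Nat.card L * q := Nat.mul_le_mul_left _ this
    _ = Nat.card K := hq.symm

lemma eta_inter (K K' : AddSubgroup G) (g g' u : G) (hu : u - g ∈ K) (hu' : u - g' ∈ K') :
    eta h (K ⊓ K') u ≤ eta h K g + eta h K' g' := by
  classical
  rw [eta_eq, eta_eq, eta_eq]
  refine le_trans (Finset.card_le_card ?_) (Finset.card_union_le _ _)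
  intro y hy
  rw [Finset.mem_filter] at hy
  rw [Finset.mem_union, Finset.mem_filter, Finset.mem_filter]
  by_contra hcon
  push Not at hcon
  apply hy.2
  rw [AddSubgroup.mem_inf]
  constructor
  · have := K.sub_mem (hcon.1 (Finset.mem_univ y)) hu
    rwa [sub_sub_sub_cancel_right] at this
  · have := K'.sub_mem (hcon.2 (Finset.mem_univ y)) hu'
    rwa [sub_sub_sub_cancel_right] at this

lemma eta_disj (K K' : AddSubgroup G) (g g' : G) (hd : ∀ u, u - g ∈ K → u - g' ∈ K' → False) :
    Fintype.card Y ≤ eta h K g + eta h K' g' := by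
  classical
  rw [eta_eq, eta_eq, ← Finset.card_univ]
  refine le_trans (Finset.card_le_card ?_) (Finset.card_union_le _ _)
  intro y hy
  rw [Finset.mem_union, Finset.mem_filter, Finset.mem_filter]
  by_contra hcon
  push Not at hcon
  exact hd _ (hcon.1 hy) (hcon.2 hy)

lemma min_lemma [Nonempty Y] {t : ℕ} (ht : t ≤ Fintype.card Y) {K' : AddSubgroup G} {g' : G}
    (hw' : 2 * Nat.card K' * eta h K' g' ≤ t)
    (hmin : ∀ (L : AddSubgroup G) (u : G), 2 * Nat.card L * eta h L u ≤ t →
      Nat.card K' ≤ Nat.card L)
    {K : AddSubgroup G} {g : G} (hw : 2 * Nat.card K * eta h K g ≤ t) :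
    (∀ u, u - g' ∈ K' → u - g ∈ K) ∨
      (g ≠ g' ∧ t = Fintype.card Y ∧ 2 * num h g = Fintype.card Y ∧
        2 * num h g' = Fintype.card Y) := by
  have hY : 0 < Fintype.card Y := Fintype.card_pos
  by_cases hint : ∃ u, u - g ∈ K ∧ u - g' ∈ K'
  · obtain ⟨u, hu, hu'⟩ := hint
    left
    by_cases hle : K' ≤ K
    · intro v hv
      have h1 : v - u ∈ K' := by
        have := K'.sub_mem hv hu'
        rwa [sub_sub_sub_cancel_right] at this
      have h2 := K.add_mem (hle h1) hu
      rwa [sub_add_sub_cancel] at h2
    · exfalso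
      by_cases hle' : K ≤ K'
      · have h1 := card_le_half hle' hle
        have h2 := hmin K g hw
        have : 0 < Nat.card K := Nat.card_pos
        omega
      · have h1 : 2 * Nat.card (K ⊓ K' : AddSubgroup G) ≤ Nat.card K' := by
          apply card_le_half inf_le_right
          intro h
          exact hle (h.trans inf_le_left)
        have h2 : 2 * Nat.card (K ⊓ K' : AddSubgroup G) ≤ Nat.card K := by
          apply card_le_half inf_le_left
          intro h
          exact hle' (h.trans inf_le_right)
        have h3 := eta_inter h K K' g g' u hu hu'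
        have h4 : 2 * Nat.card (K ⊓ K' : AddSubgroup G) * eta h (K ⊓ K') u ≤ t := by
          have e1 : 2 * Nat.card (K ⊓ K' : AddSubgroup G) * eta h (K ⊓ K') u ≤
              2 * Nat.card (K ⊓ K' : AddSubgroup G) * (eta h K g + eta h K' g') :=
            Nat.mul_le_mul_left _ h3
          have e2 : 2 * Nat.card (K ⊓ K' : AddSubgroup G) * eta h K g ≤
              Nat.card K * eta h K g := Nat.mul_le_mul_right _ h2
          have e3 : 2 * Nat.card (K ⊓ K' : AddSubgroup G) * eta h K' g' ≤
              Nat.card K' * eta h K' g' := Nat.mul_le_mul_right _ h1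
          rw [mul_add] at e1
          rw [mul_assoc] at hw hw'
          omega
        have h5 := hmin _ _ h4
        have : 0 < Nat.card (K ⊓ K' : AddSubgroup G) := Nat.card_pos
        omega
  · right
    push Not at hint
    have h1 := eta_disj h K K' g g' fun u hu hu' => hint u hu hu'
    have hK1 : Nat.card K = 1 := by
      by_contra hne
      have hpos : 0 < Nat.card K := Nat.card_pos
      have hpos' : 0 < Nat.card K' := Nat.card_pos
      have h2 : 2 ≤ Nat.card K := by omega
      have h3 : 2 * 2 * eta h K g ≤ t := le_trans (by gcongr) hw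
      have h4 : 2 * 1 * eta h K' g' ≤ t := le_trans (by gcongr; exact hpos') hw'
      omega
    have hK1' : Nat.card K' = 1 := by
      by_contra hne
      have hpos' : 0 < Nat.card K' := Nat.card_pos
      have h2 : 2 ≤ Nat.card K' := by omega
      have h3 : 2 * 2 * eta h K' g' ≤ t := le_trans (by gcongr) hw'
      rw [hK1] at hw
      omega
    have hb : K = ⊥ := AddSubgroup.eq_bot_of_card_eq K hK1
    have hb' : K' = ⊥ := AddSubgroup.eq_bot_of_card_eq K' hK1'
    subst hb
    subst hb'
    rw [hK1] at hw
    rw [hK1] at hw'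
    have e1 := eta_bot h g
    have e2 := eta_bot h g'
    refine ⟨?_, by omega, by omega, by omega⟩
    rintro rfl
    exact hint g (by simp) (by simp)

open Classical in
/-- strictly dominated places -/
noncomputable def Bs : Finset Y := Finset.univ.filter fun y =>
  ∃ (K : AddSubgroup G) (g : G), h y - g ∉ K ∧ 2 * Nat.card K * eta h K g < Fintype.card Y

open Classical in
/-- weakly dominated places -/
noncomputable def Bw : Finset Y := Finset.univ.filter fun y =>
  ∃ (K : AddSubgroup G) (g : G), h y - g ∉ K ∧ 2 * Nat.card K * eta h K g ≤ Fintype.card Y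

lemma exists_min {t : ℕ} (hex : ∃ (K : AddSubgroup G) (g : G), 2 * Nat.card K * eta h K g ≤ t) :
    ∃ (K' : AddSubgroup G) (g' : G), 2 * Nat.card K' * eta h K' g' ≤ t ∧
      ∀ (L : AddSubgroup G) (u : G), 2 * Nat.card L * eta h L u ≤ t →
        Nat.card K' ≤ Nat.card L := by
  classical
  have hex' : ∃ n : ℕ, ∃ (K : AddSubgroup G) (g : G), 2 * Nat.card K * eta h K g ≤ t ∧
      Nat.card K = n := by
    obtain ⟨K, g, hK⟩ := hex
    exact ⟨_, K, g, hK, rfl⟩
  obtain ⟨K', g', h1, h2⟩ := Nat.find_spec hex'
  refine ⟨K', g', h1, ?_⟩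
  intro L u hL
  rw [h2]
  exact Nat.find_min' hex' ⟨L, u, hL, rfl⟩

lemma two_Bs [Nonempty Y] : 2 * (Bs h).card < Fintype.card Y := by
  classical
  have hY : 0 < Fintype.card Y := Fintype.card_pos
  by_cases hex : ∃ (K : AddSubgroup G) (g : G),
      2 * Nat.card K * eta h K g ≤ Fintype.card Y - 1
  · obtain ⟨K', g', h1, h2⟩ := exists_min h hex
    have h3 : Bs h ⊆ Finset.univ.filter fun y => h y - g' ∉ K' := by
      intro y hy
      rw [Bs, Finset.mem_filter] at hy
      obtain ⟨_, K, g, hg, hw⟩ := hy
      rw [Finset.mem_filter]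
      refine ⟨Finset.mem_univ y, fun hcon => ?_⟩
      rcases min_lemma h (Nat.sub_le _ _) h1 h2 (K := K) (g := g) (by omega) with h4 | h4
      · exact hg (h4 _ hcon)
      · have := h4.2.1
        omega
    have h4 := Finset.card_le_card h3
    rw [← eta_eq] at h4
    have hpos : 1 ≤ Nat.card K' := Nat.card_pos
    have h5 : 2 * 1 * eta h K' g' ≤ Fintype.card Y - 1 := le_trans (by gcongr) h1
    omega
  · have : Bs h = ∅ := by
      rw [Finset.eq_empty_iff_forall_notMem]
      intro y hy
      rw [Bs, Finset.mem_filter] at hy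
      obtain ⟨_, K, g, hg, hw⟩ := hy
      exact hex ⟨K, g, by omega⟩
    rw [this, Finset.card_empty]
    omega

theorem row_lemma [Nonempty Y] : (Bs h).card + (Bw h).card ≤ Fintype.card Y ∧
    ((Bs h).card + (Bw h).card = Fintype.card Y → ∃ a b, a ≠ b ∧
      2 * num h a = Fintype.card Y ∧ 2 * num h b = Fintype.card Y) := by
  classical
  have hY : 0 < Fintype.card Y := Fintype.card_pos
  have hBs := two_Bs h
  by_cases hex : ∃ (K : AddSubgroup G) (g : G), 2 * Nat.card K * eta h K g ≤ Fintype.card Y
  · obtain ⟨K', g', h1, h2⟩ := exists_min h hex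
    by_cases hall : ∀ (K : AddSubgroup G) (g : G), 2 * Nat.card K * eta h K g ≤ Fintype.card Y →
        ∀ u, u - g' ∈ K' → u - g ∈ K
    · have h3 : Bw h ⊆ Finset.univ.filter fun y => h y - g' ∉ K' := by
        intro y hy
        rw [Bw, Finset.mem_filter] at hy
        obtain ⟨_, K, g, hg, hw⟩ := hy
        rw [Finset.mem_filter]
        exact ⟨Finset.mem_univ y, fun hcon => hg (hall K g hw _ hcon)⟩
      have h4 := Finset.card_le_card h3
      rw [← eta_eq] at h4
      have hpos : 1 ≤ Nat.card K' := Nat.card_pos
      have h5 : 2 * 1 * eta h K' g' ≤ Fintype.card Y := le_trans (by gcongr) h1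
      constructor
      · omega
      · intro h6
        omega
    · push Not at hall
      obtain ⟨K, g, hw, u, hu, hug⟩ := hall
      obtain ⟨h3, -, h4, h5⟩ : g ≠ g' ∧ Fintype.card Y = Fintype.card Y ∧
          2 * num h g = Fintype.card Y ∧ 2 * num h g' = Fintype.card Y := by
        rcases min_lemma h le_rfl h1 h2 hw with h4 | h4
        · exact absurd (h4 u hu) hug
        · exact h4
      have h6 : ∀ y, h y = g ∨ h y = g' := by
        by_contra hcon
        push Not at hcon
        obtain ⟨y0, hy0, hy0'⟩ := hcon
        rw [num_eq] at h4 h5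
        have hd : Disjoint (Finset.univ.filter fun y => h y = g)
            (Finset.univ.filter fun y => h y = g') := by
          rw [Finset.disjoint_left]
          intro y hy hy'
          rw [Finset.mem_filter] at hy hy'
          exact h3 (hy.2.symm.trans hy'.2)
        have h7 := Finset.card_union_of_disjoint hd
        have h8 : ((Finset.univ.filter fun y => h y = g) ∪
            (Finset.univ.filter fun y => h y = g')).card < Fintype.card Y := by
          rw [← Finset.card_univ]
          apply Finset.card_lt_card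
          rw [Finset.ssubset_univ_iff]
          intro heq
          have := Finset.mem_univ y0
          rw [← heq, Finset.mem_union, Finset.mem_filter, Finset.mem_filter] at this
          rcases this with h | h
          · exact hy0 h.2
          · exact hy0' h.2
        omega
      have h7 : Bs h = ∅ := by
        rw [Finset.eq_empty_iff_forall_notMem]
        intro y hy
        rw [Bs, Finset.mem_filter] at hy
        obtain ⟨_, P, p, hp, hw'⟩ := hy
        have hpos : 1 ≤ Nat.card P := Nat.card_pos
        have h8 : 2 * 1 * eta h P p < Fintype.card Y := lt_of_le_of_lt (by gcongr) hw'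
        have key : ∀ a, 2 * num h a = Fintype.card Y → a - p ∈ P := by
          intro a ha
          by_contra hcon
          have h9 : num h a ≤ eta h P p := by
            rw [num_eq, eta_eq]
            apply Finset.card_le_card
            intro z hz
            rw [Finset.mem_filter] at hz ⊢
            refine ⟨hz.1, ?_⟩
            rw [hz.2]
            exact hcon
          omega
        rcases h6 y with h9 | h9
        · exact hp (h9 ▸ key g h4)
        · exact hp (h9 ▸ key g' h5)
      rw [h7, Finset.card_empty, zero_add]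
      refine ⟨?_, fun _ => ⟨g, g', h3, h4, h5⟩⟩
      exact Finset.card_le_univ _
  · have : Bw h = ∅ := by
      rw [Finset.eq_empty_iff_forall_notMem]
      intro y hy
      rw [Bw, Finset.mem_filter] at hy
      obtain ⟨_, K, g, hg, hw⟩ := hy
      exact hex ⟨K, g, hw⟩
    rw [this, Finset.card_empty]
    constructor
    · omega
    · intro h6
      omega

end row

lemma two_halves {Y : Type*} [Fintype Y] [Nonempty Y] (h : Y → G) {a b : G} (hab : a ≠ b)
    (ha : 2 * num h a = Fintype.card Y) (hb : 2 * num h b = Fintype.card Y) :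
    ∀ y, h y = a ∨ h y = b := by
  classical
  by_contra hcon
  push Not at hcon
  obtain ⟨y0, hy0, hy0'⟩ := hcon
  rw [num_eq] at ha hb
  have hd : Disjoint (Finset.univ.filter fun y => h y = a)
      (Finset.univ.filter fun y => h y = b) := by
    rw [Finset.disjoint_left]
    intro y hy hy'
    rw [Finset.mem_filter] at hy hy'
    exact hab (hy.2.symm.trans hy'.2)
  have h7 := Finset.card_union_of_disjoint hd
  have h8 : ((Finset.univ.filter fun y => h y = a) ∪
      (Finset.univ.filter fun y => h y = b)).card < Fintype.card Y := by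
    rw [← Finset.card_univ]
    apply Finset.card_lt_card
    rw [Finset.ssubset_univ_iff]
    intro heq
    have := Finset.mem_univ y0
    rw [← heq, Finset.mem_union, Finset.mem_filter, Finset.mem_filter] at this
    rcases this with h | h
    · exact hy0 h.2
    · exact hy0' h.2
  omega

lemma num_pos_of_half {Y : Type*} [Fintype Y] [Nonempty Y] (h : Y → G) {a : G}
    (ha : 2 * num h a = Fintype.card Y) : ∃ y, h y = a := by
  classical
  by_contra hcon
  push Not at hcon
  have hY : 0 < Fintype.card Y := Fintype.card_pos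
  have : num h a = 0 := by
    rw [num_eq, Finset.card_eq_zero, Finset.filter_eq_empty_iff]
    exact fun y _ => hcon y
  omega

lemma num_le_eta {Y : Type*} [Fintype Y] (h : Y → G) {a g : G} {K : AddSubgroup G}
    (hcon : a - g ∉ K) : num h a ≤ eta h K g := by
  classical
  rw [num_eq, eta_eq]
  apply Finset.card_le_card
  intro z hz
  rw [Finset.mem_filter] at hz ⊢
  refine ⟨hz.1, ?_⟩
  rw [hz.2]
  exact hcon

theorem structure_thm {X Y : Type*} [Fintype X] [Fintype Y] [Nonempty X] [Nonempty Y]
    (c : X → Y → G) (m : ℕ) (hm : Fintype.card X + Fintype.card Y = 2 * m)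
    (hbad : ∀ x y, ∃ (K : AddSubgroup G) (g : G), c x y - g ∉ K ∧
      Nat.card K * (eta (c x) K g + eta (fun x' => c x' y) K g) ≤ m) :
    ∃ a b, a ≠ b ∧
      (∀ x, 2 * num (c x) a = Fintype.card Y ∧ 2 * num (c x) b = Fintype.card Y) ∧
      (∀ y, 2 * num (fun x => c x y) a = Fintype.card X ∧
        2 * num (fun x => c x y) b = Fintype.card X) := by
  classical
  -- indicator inequality
  have hpt : ∀ x y, 2 ≤ ((if y ∈ Bs (c x) then 1 else 0) + (if y ∈ Bw (c x) then 1 else 0)) +
      ((if x ∈ Bs (fun x' => c x' y) then 1 else 0) +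
        (if x ∈ Bw (fun x' => c x' y) then 1 else 0)) := by
    intro x y
    obtain ⟨K, g, hg, hw⟩ := hbad x y
    have e1 : 2 * Nat.card K * eta (c x) K g + 2 * Nat.card K * eta (fun x' => c x' y) K g ≤
        Fintype.card Y + Fintype.card X := by
      calc 2 * Nat.card K * eta (c x) K g + 2 * Nat.card K * eta (fun x' => c x' y) K g
          = 2 * (Nat.card K * (eta (c x) K g + eta (fun x' => c x' y) K g)) := by ring
        _ ≤ 2 * m := Nat.mul_le_mul_left _ hw
        _ = _ := by omega
    by_cases h1 : 2 * Nat.card K * eta (c x) K g < Fintype.card Y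
    · have m1 : y ∈ Bs (c x) := by
        rw [Bs, Finset.mem_filter]
        exact ⟨Finset.mem_univ y, K, g, hg, h1⟩
      have m2 : y ∈ Bw (c x) := by
        rw [Bw, Finset.mem_filter]
        exact ⟨Finset.mem_univ y, K, g, hg, h1.le⟩
      rw [if_pos m1, if_pos m2]
      omega
    · by_cases h2 : 2 * Nat.card K * eta (fun x' => c x' y) K g < Fintype.card X
      · have m1 : x ∈ Bs (fun x' => c x' y) := by
          rw [Bs, Finset.mem_filter]
          exact ⟨Finset.mem_univ x, K, g, hg, h2⟩
        have m2 : x ∈ Bw (fun x' => c x' y) := by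
          rw [Bw, Finset.mem_filter]
          exact ⟨Finset.mem_univ x, K, g, hg, h2.le⟩
        rw [if_pos m1, if_pos m2]
        omega
      · have m1 : y ∈ Bw (c x) := by
          rw [Bw, Finset.mem_filter]
          exact ⟨Finset.mem_univ y, K, g, hg, by omega⟩
        have m2 : x ∈ Bw (fun x' => c x' y) := by
          rw [Bw, Finset.mem_filter]
          exact ⟨Finset.mem_univ x, K, g, hg, by omega⟩
        rw [if_pos m1, if_pos m2]
        omega
  have hsum : 2 * (Fintype.card X * Fintype.card Y) ≤
      ∑ x, ((Bs (c x)).card + (Bw (c x)).card) +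
      ∑ y, ((Bs (fun x' => c x' y)).card + (Bw (fun x' => c x' y)).card) := by
    have e1 : ∀ x, (Bs (c x)).card + (Bw (c x)).card =
        ∑ y, ((if y ∈ Bs (c x) then 1 else 0) + (if y ∈ Bw (c x) then 1 else 0)) := by
      intro x
      rw [Finset.sum_add_distrib, Finset.sum_boole, Finset.sum_boole]
      simp
    have e2 : ∀ y, (Bs (fun x' => c x' y)).card + (Bw (fun x' => c x' y)).card =
        ∑ x, ((if x ∈ Bs (fun x' => c x' y) then 1 else 0) +
          (if x ∈ Bw (fun x' => c x' y) then 1 else 0)) := by
      intro y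
      rw [Finset.sum_add_distrib, Finset.sum_boole, Finset.sum_boole]
      simp
    simp_rw [e1, e2]
    rw [Finset.sum_comm (s := (Finset.univ : Finset Y)), ← Finset.sum_add_distrib]
    simp_rw [← Finset.sum_add_distrib]
    calc 2 * (Fintype.card X * Fintype.card Y) = ∑ x : X, ∑ y : Y, 2 := by
          simp
          ring
      _ ≤ _ := Finset.sum_le_sum fun x _ => Finset.sum_le_sum fun y _ => hpt x y
  have hX : ∀ x, (Bs (c x)).card + (Bw (c x)).card ≤ Fintype.card Y := fun x =>
    (row_lemma (c x)).1
  have hYr : ∀ y, (Bs (fun x' => c x' y)).card + (Bw (fun x' => c x' y)).card ≤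
      Fintype.card X := fun y => (row_lemma (fun x' => c x' y)).1
  have sX : ∑ x, ((Bs (c x)).card + (Bw (c x)).card) ≤ Fintype.card X * Fintype.card Y := by
    refine (Finset.sum_le_sum fun x _ => hX x).trans ?_
    simp
  have sY : ∑ y, ((Bs (fun x' => c x' y)).card + (Bw (fun x' => c x' y)).card) ≤
      Fintype.card X * Fintype.card Y := by
    refine (Finset.sum_le_sum fun y _ => hYr y).trans ?_
    simp [mul_comm]
  have eX : ∀ x, (Bs (c x)).card + (Bw (c x)).card = Fintype.card Y := by
    have h1 : ∑ x : X, ((Bs (c x)).card + (Bw (c x)).card) = ∑ _x : X, Fintype.card Y := by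
      simp only [Finset.sum_const, Finset.card_univ, smul_eq_mul]
      omega
    intro x
    exact (Finset.sum_eq_sum_iff_of_le fun x _ => hX x).1 h1 x (Finset.mem_univ x)
  have eY : ∀ y, (Bs (fun x' => c x' y)).card + (Bw (fun x' => c x' y)).card =
      Fintype.card X := by
    have h1 : ∑ y : Y, ((Bs (fun x' => c x' y)).card + (Bw (fun x' => c x' y)).card) =
        ∑ _y : Y, Fintype.card X := by
      simp only [Finset.sum_const, Finset.card_univ, smul_eq_mul]
      rw [mul_comm (Fintype.card Y)]
      omega
    intro y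
    exact (Finset.sum_eq_sum_iff_of_le fun y _ => hYr y).1 h1 y (Finset.mem_univ y)
  -- local structure
  have hloc : ∀ x y, ∃ a b, a ≠ b ∧ 2 * num (c x) a = Fintype.card Y ∧
      2 * num (c x) b = Fintype.card Y ∧ 2 * num (fun x' => c x' y) a = Fintype.card X ∧
      2 * num (fun x' => c x' y) b = Fintype.card X := by
    intro x y
    obtain ⟨a, b, hab, ha, hb⟩ := (row_lemma (c x)).2 (eX x)
    obtain ⟨a', b', hab', ha', hb'⟩ := (row_lemma (fun x' => c x' y)).2 (eY y)
    obtain ⟨K, g, hg, hw⟩ := hbad x y
    -- the value c x y is half in both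
    have r1 : 2 * num (c x) (c x y) = Fintype.card Y := by
      rcases two_halves (c x) hab ha hb y with h | h
      · rw [h]; exact ha
      · rw [h]; exact hb
    have r2 : 2 * num (fun x' => c x' y) (c x y) = Fintype.card X := by
      rcases two_halves (fun x' => c x' y) hab' ha' hb' x with h | h
      · rw [h]; exact ha'
      · rw [h]; exact hb'
    have r3 := num_le_eta (c x) hg
    have r4 := num_le_eta (fun x' => c x' y) hg
    have hXpos : 0 < Fintype.card X := Fintype.card_pos
    have hYpos : 0 < Fintype.card Y := Fintype.card_pos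
    have hK1 : Nat.card K = 1 := by
      by_contra hne
      have hpos : 0 < Nat.card K := Nat.card_pos
      have h2 : 2 ≤ Nat.card K := by omega
      have h3 : 2 * (eta (c x) K g + eta (fun x' => c x' y) K g) ≤ m :=
        le_trans (Nat.mul_le_mul_right _ h2) hw
      omega
    have hb0 : K = ⊥ := AddSubgroup.eq_bot_of_card_eq K hK1
    subst hb0
    rw [hK1, one_mul] at hw
    have q1 := eta_bot (c x) g
    have q2 := eta_bot (fun x' => c x' y) g
    refine ⟨c x y, g, ?_, r1, by omega, r2, by omega⟩
    intro h
    apply hg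
    rw [h, sub_self]
    exact AddSubgroup.zero_mem _
  -- global structure
  obtain ⟨x0⟩ := ‹Nonempty X›
  obtain ⟨y0⟩ := ‹Nonempty Y›
  obtain ⟨a, b, hab, ha, hb, ha', hb'⟩ := hloc x0 y0
  have : Nonempty X := ⟨x0⟩
  have : Nonempty Y := ⟨y0⟩
  refine ⟨a, b, hab, ?_, ?_⟩
  · intro x
    obtain ⟨a1, b1, hab1, ha1, hb1, ha1', hb1'⟩ := hloc x y0
    obtain ⟨x1, hx1⟩ := num_pos_of_half _ ha'
    obtain ⟨x2, hx2⟩ := num_pos_of_half _ hb'
    have k1 : c x1 y0 = a1 ∨ c x1 y0 = b1 := two_halves _ hab1 ha1' hb1' x1
    have k2 : c x2 y0 = a1 ∨ c x2 y0 = b1 := two_halves _ hab1 ha1' hb1' x2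
    have hx1' : c x1 y0 = a := hx1
    have hx2' : c x2 y0 = b := hx2
    rw [hx1'] at k1
    rw [hx2'] at k2
    constructor
    · rcases k1 with h | h
      · rw [h]; exact ha1
      · rw [h]; exact hb1
    · rcases k2 with h | h
      · rw [h]; exact ha1
      · rw [h]; exact hb1
  · intro y
    obtain ⟨a1, b1, hab1, ha1, hb1, ha1', hb1'⟩ := hloc x0 y
    obtain ⟨y1, hy1⟩ := num_pos_of_half _ ha
    obtain ⟨y2, hy2⟩ := num_pos_of_half _ hb
    have k1 := two_halves _ hab1 ha1 hb1 y1
    have k2 := two_halves _ hab1 ha1 hb1 y2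
    rw [hy1] at k1
    rw [hy2] at k2
    constructor
    · rcases k1 with h | h
      · rw [h]; exact ha1'
      · rw [h]; exact hb1'
    · rcases k2 with h | h
      · rw [h]; exact ha1'
      · rw [h]; exact hb1'

end Pool.Agent.Helper65.ZR
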