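import Mathlib

set_option autoImplicit false

/-!
Trees built by adding leaves, and copies of trees in complete graphs.
-/

namespace Pool.Agent.Helper65.ZR

open Finset

/-- `Grow good w U t`: a tree with vertex set `U`, edges in `good`, total weight `t`, built by
adding leaves one at a time. -/
inductive Grow {V A : Type*} [DecidableEq V] [AddCommMonoid A] (good : V → V → Prop)
    (w : V → V → A) : Finset V → A → Prop
  | single (v : V) : Grow good w {v} 0
  | step (U : Finset V) (t : A) (u x : V) (h : Grow good w U t) (hu : u ∈ U) (hx : x ∉ U)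
      (hg : good u x) : Grow good w (insert x U) (t + w u x)

lemma Grow.enum {V A : Type*} [DecidableEq V] [AddCommMonoid A] {good : V → V → Prop}
    {w : V → V → A} {U : Finset V} {t : A} (h : Grow good w U t) :
    ∀ k : ℕ, U.card = k + 1 → ∃ (v : ℕ → V) (p : ℕ → ℕ), Set.InjOn v (Set.Iic k) ∧
      U = (Finset.range (k + 1)).image v ∧ (∀ i, 1 ≤ i → i ≤ k → p i < i ∧ good (v (p i)) (v i)) ∧
      t = ∑ i ∈ Finset.range k, w (v (p (i + 1))) (v (i + 1)) := by
  induction h with
  | single v =>
    intro k hk
    rw [Finset.card_singleton] at hk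
    have hk0 : k = 0 := by omega
    subst hk0
    refine ⟨fun _ => v, fun _ => 0, ?_, ?_, ?_, ?_⟩
    · intro a ha b hb _
      rw [Set.mem_Iic] at ha hb
      omega
    · simp
    · intro i h1 h2
      omega
    · simp
  | step U t u x h hu hx hg ih =>
    intro k hk
    rw [Finset.card_insert_of_notMem hx] at hk
    have hU : 1 ≤ U.card := Finset.card_pos.2 ⟨u, hu⟩
    obtain ⟨k', rfl⟩ : ∃ k', k = k' + 1 := ⟨k - 1, by omega⟩
    obtain ⟨v, p, hv, hUv, hp, ht⟩ := ih k' (by omega)
    obtain ⟨j, hj, hju⟩ : ∃ j ≤ k', v j = u := by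
      rw [hUv, Finset.mem_image] at hu
      obtain ⟨j, hj, hju⟩ := hu
      rw [Finset.mem_range] at hj
      exact ⟨j, by omega, hju⟩
    have hxv : ∀ i ≤ k', v i ≠ x := by
      intro i hi hix
      apply hx
      rw [hUv, Finset.mem_image]
      exact ⟨i, Finset.mem_range.2 (by omega), hix⟩
    refine ⟨Function.update v (k' + 1) x, Function.update p (k' + 1) j, ?_, ?_, ?_, ?_⟩
    · intro a ha b hb hab
      rw [Set.mem_Iic] at ha hb
      by_cases h1 : a = k' + 1
      · by_cases h2 : b = k' + 1
        · rw [h1, h2]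
        · rw [h1, Function.update_self, Function.update_of_ne h2] at hab
          exact absurd hab.symm (hxv b (by omega))
      · by_cases h2 : b = k' + 1
        · rw [h2, Function.update_self, Function.update_of_ne h1] at hab
          exact absurd hab (hxv a (by omega))
        · rw [Function.update_of_ne h1, Function.update_of_ne h2] at hab
          exact hv (Set.mem_Iic.2 (by omega)) (Set.mem_Iic.2 (by omega)) hab
    · rw [Finset.range_add_one, Finset.image_insert, Function.update_self, hUv]
      congr 1
      apply Finset.image_congr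
      intro i hi
      rw [Finset.mem_coe, Finset.mem_range] at hi
      rw [Function.update_of_ne (by omega)]
    · intro i h1 h2
      by_cases h3 : i = k' + 1
      · subst h3
        rw [Function.update_self, Function.update_self, Function.update_of_ne (by omega), hju]
        exact ⟨by omega, hg⟩
      · have h4 := hp i h1 (by omega)
        rw [Function.update_of_ne h3, Function.update_of_ne h3,
          Function.update_of_ne (by omega : p i ≠ k' + 1)]
        exact h4
    · rw [Finset.sum_range_succ, Function.update_self, Function.update_self,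
        Function.update_of_ne (by omega : j ≠ k' + 1), hju, ht]
      congr 1
      apply Finset.sum_congr rfl
      intro i hi
      rw [Finset.mem_range] at hi
      have h4 := (hp (i + 1) (by omega) (by omega)).1
      rw [Function.update_of_ne (by omega : i + 1 ≠ k' + 1),
        Function.update_of_ne (by omega : i + 1 ≠ k' + 1),
        Function.update_of_ne (by omega : p (i + 1) ≠ k' + 1)]

/-- the tree given by a parent function -/
def parentTree (k : ℕ) (p : ℕ → ℕ) : SimpleGraph (Fin (k + 1)) where
  Adj i j := ((i : ℕ) ≠ 0 ∧ p i = j ∧ p i < i) ∨ ((j : ℕ) ≠ 0 ∧ p j = i ∧ p j < j)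
  symm := ⟨fun i j h => h.symm⟩
  loopless := ⟨fun i h => by
    rcases h with h | h <;> omega⟩

lemma parentTree_edgeSet (k : ℕ) (p : ℕ → ℕ) (hp : ∀ i, 1 ≤ i → i ≤ k → p i < i) :
    (parentTree k p).edgeSet = Set.range fun i : Fin k =>
      s((⟨p (i + 1), by have := hp (i + 1) (by omega) (by omega); omega⟩ : Fin (k + 1)),
        (i.succ : Fin (k + 1))) := by
  ext e
  induction e using Sym2.ind with
  | _ a b =>
  rw [SimpleGraph.mem_edgeSet, Set.mem_range]
  constructor
  · intro h
    rcases h with ⟨h1, h2, h3⟩ | ⟨h1, h2, h3⟩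
    · refine ⟨⟨(a : ℕ) - 1, by omega⟩, ?_⟩
      rw [Sym2.eq_iff]
      right
      constructor
      · ext
        show p ((a : ℕ) - 1 + 1) = b
        rw [Nat.sub_add_cancel (by omega)]
        exact h2
      · ext
        show (a : ℕ) - 1 + 1 = a
        omega
    · refine ⟨⟨(b : ℕ) - 1, by omega⟩, ?_⟩
      rw [Sym2.eq_iff]
      left
      constructor
      · ext
        show p ((b : ℕ) - 1 + 1) = a
        rw [Nat.sub_add_cancel (by omega)]
        exact h2
      · ext
        show (b : ℕ) - 1 + 1 = b
        omega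
  · rintro ⟨i, hi⟩
    have hlt := hp (i + 1) (by omega) (by omega)
    rw [Sym2.eq_iff] at hi
    rcases hi with ⟨h1, h2⟩ | ⟨h1, h2⟩
    · right
      have e1 : (b : ℕ) = i + 1 := by rw [← h2]; rfl
      have e2 : (a : ℕ) = p (i + 1) := by rw [← h1]
      rw [e1, e2]
      exact ⟨by omega, rfl, hlt⟩
    · left
      have e1 : (a : ℕ) = i + 1 := by rw [← h2]; rfl
      have e2 : (b : ℕ) = p (i + 1) := by rw [← h1]
      rw [e1, e2]
      exact ⟨by omega, rfl, hlt⟩

lemma parent_inj (k : ℕ) (p : ℕ → ℕ) (hp : ∀ i, 1 ≤ i → i ≤ k → p i < i) :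
    Function.Injective fun i : Fin k =>
      s((⟨p (i + 1), by have := hp (i + 1) (by omega) (by omega); omega⟩ : Fin (k + 1)),
        (i.succ : Fin (k + 1))) := by
  intro i j hij
  simp only at hij
  rw [Sym2.eq_iff] at hij
  have h1 := hp (i + 1) (by omega) (by omega)
  have h2 := hp (j + 1) (by omega) (by omega)
  rcases hij with ⟨_, h⟩ | ⟨h, h'⟩
  · exact Fin.succ_injective _ h
  · have e1 : p ((i : ℕ) + 1) = j + 1 := congrArg Fin.val h
    have e2 : (i : ℕ) + 1 = p (j + 1) := congrArg Fin.val h'
    omega

lemma parentTree_isTree (k : ℕ) (p : ℕ → ℕ) (hp : ∀ i, 1 ≤ i → i ≤ k → p i < i) :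
    (parentTree k p).IsTree := by
  rw [SimpleGraph.isTree_iff_connected_and_card]
  constructor
  · rw [SimpleGraph.connected_iff_exists_forall_reachable]
    refine ⟨0, ?_⟩
    have key : ∀ n : ℕ, ∀ i : Fin (k + 1), (i : ℕ) = n → (parentTree k p).Reachable 0 i := by
      intro n
      induction n using Nat.strong_induction_on with
      | _ n ih =>
        intro i hi
        by_cases h0 : (i : ℕ) = 0
        · have : i = 0 := Fin.ext h0
          rw [this]
        · have h1 := hp i (by omega) (by omega)
          have h2 := ih (p i) (by omega) ⟨p i, by omega⟩ rfl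
          refine h2.trans (SimpleGraph.Adj.reachable ?_)
          right
          exact ⟨h0, rfl, h1⟩
    exact fun i => key i i rfl
  · rw [parentTree_edgeSet k p hp, Nat.card_range_of_injective (parent_inj k p hp)]
    simp

open Classical in
theorem Grow.tree {V A : Type*} [DecidableEq V] [AddCommMonoid A] {good : V → V → Prop}
    {w : Sym2 V → A} {U : Finset V} {t : A} {k : ℕ}
    (h : Grow good (fun a b => w s(a, b)) U t) (hU : U.card = k + 1)
    (hsymm : ∀ a b, good a b → good b a) :
    ∃ (T : SimpleGraph (Fin (k + 1))) (f : Fin (k + 1) ↪ V), T.IsTree ∧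
      (∀ a b, T.Adj a b → good (f a) (f b)) ∧ ∑ e ∈ T.edgeFinset, w (e.map f) = t := by
  obtain ⟨v, p, hv, hUv, hp, ht⟩ := h.enum k hU
  have hp' : ∀ i, 1 ≤ i → i ≤ k → p i < i := fun i h1 h2 => (hp i h1 h2).1
  let f : Fin (k + 1) ↪ V := ⟨fun i => v i, fun i j hij => Fin.ext
    (hv (Set.mem_Iic.2 (by omega)) (Set.mem_Iic.2 (by omega)) hij)⟩
  refine ⟨parentTree k p, f, parentTree_isTree k p hp', ?_, ?_⟩
  · intro a b hab
    rcases hab with ⟨h1, h2, h3⟩ | ⟨h1, h2, h3⟩
    · have h4 := (hp a (by omega) (by omega)).2
      rw [h2] at h4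
      exact hsymm _ _ h4
    · have h4 := (hp b (by omega) (by omega)).2
      rw [h2] at h4
      exact h4
  · have h1 : (parentTree k p).edgeFinset = Finset.univ.image fun i : Fin k =>
      s((⟨p (i + 1), by have := hp' (i + 1) (by omega) (by omega); omega⟩ : Fin (k + 1)),
        (i.succ : Fin (k + 1))) := by
      ext e
      rw [SimpleGraph.mem_edgeFinset, parentTree_edgeSet k p hp', Finset.mem_image, Set.mem_range]
      simp
    rw [h1, Finset.sum_image (fun i _ j _ h => parent_inj k p hp' h), ht,
      ← Fin.sum_univ_eq_sum_range (fun i => w s(v (p (i + 1)), v (i + 1)))]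
    rfl

end Pool.Agent.Helper65.ZR
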