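import Mathlib
import Pool.Agent.Helper65.ZR.Count
import Pool.Agent.Helper65.ZR.Tree

set_option autoImplicit false

/-!
Complete bipartite graphs without zero-sum trees.
-/

namespace Pool.Agent.Helper65.ZR

open Finset

variable {V : Type*} [DecidableEq V]

lemma dstar {A : Type*} [AddCommMonoid A] {good : V → V → Prop} {W : V → V → A} {x y : V}
    (hxy : x ≠ y) (hg : good x y) (att : V → Prop) [DecidablePred att] (Z : Finset V)
    (hx : x ∉ Z) (hy : y ∉ Z) (h1 : ∀ z ∈ Z, att z → good x z) (h2 : ∀ z ∈ Z, ¬ att z → good y z) :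
    ∃ U : Finset V, U.card = Z.card + 2 ∧ (∀ z, z ∈ U ↔ z = x ∨ z = y ∨ z ∈ Z) ∧
      Grow good W U (W x y + ∑ z ∈ Z, if att z then W x z else W y z) := by
  induction Z using Finset.induction_on with
  | empty =>
    refine ⟨insert y {x}, ?_, ?_, ?_⟩
    · rw [Finset.card_insert_of_notMem (by simpa using hxy.symm), Finset.card_singleton,
        Finset.card_empty]
    · intro z
      simp [or_comm]
    · rw [Finset.sum_empty, add_zero]
      have := Grow.step (good := good) (w := W) {x} 0 x y (Grow.single x)
        (Finset.mem_singleton_self x) (by simpa using hxy.symm) hg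
      rwa [zero_add] at this
  | insert a s ha ih =>
    obtain ⟨U, hU1, hU2, hU3⟩ := ih (fun h => hx (Finset.mem_insert_of_mem h))
      (fun h => hy (Finset.mem_insert_of_mem h))
      (fun z hz => h1 z (Finset.mem_insert_of_mem hz))
      (fun z hz => h2 z (Finset.mem_insert_of_mem hz))
    have hax : a ≠ x := by
      rintro rfl
      exact hx (Finset.mem_insert_self _ _)
    have hay : a ≠ y := by
      rintro rfl
      exact hy (Finset.mem_insert_self _ _)
    have haU : a ∉ U := by
      rw [hU2]
      push Not
      exact ⟨hax, hay, ha⟩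
    refine ⟨insert a U, ?_, ?_, ?_⟩
    · rw [Finset.card_insert_of_notMem haU, Finset.card_insert_of_notMem ha, hU1]
    · intro z
      rw [Finset.mem_insert, hU2, Finset.mem_insert]
      tauto
    · by_cases hatt : att a
      · have := Grow.step U _ x a hU3 ((hU2 x).2 (Or.inl rfl)) haU
          (h1 a (Finset.mem_insert_self _ _) hatt)
        rw [Finset.sum_insert ha, if_pos hatt]
        convert this using 1
        rw [add_assoc, add_comm (W x a)]
      · have := Grow.step U _ y a hU3 ((hU2 y).2 (Or.inr (Or.inl rfl))) haU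
          (h2 a (Finset.mem_insert_self _ _) hatt)
        rw [Finset.sum_insert ha, if_neg hatt]
        convert this using 1
        rw [add_assoc, add_comm (W y a)]

variable {m : ℕ} [NeZero m] {good : V → V → Prop} {w : Sym2 V → ZMod m}

lemma hbad (hsymm : ∀ a b, good a b → good b a)
    (hno : ∀ U : Finset V, U.card = m + 1 → ¬ Grow good (fun a b => w s(a, b)) U 0)
    {X Y : Finset V} (hXY : Disjoint X Y) (hcard : 2 * m ≤ X.card + Y.card)
    (hgood : ∀ x ∈ X, ∀ y ∈ Y, good x y) (x : X) (y : Y) :
    ∃ (K : AddSubgroup (ZMod m)) (g : ZMod m), w s(x.1, y.1) - g ∉ K ∧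
      Nat.card K * (eta (fun y' : Y => w s(x.1, y'.1)) K g +
        eta (fun x' : X => w s(x'.1, y.1)) K g) ≤ m := by
  classical
  have hm : 1 ≤ m := Nat.one_le_iff_ne_zero.2 (NeZero.ne m)
  obtain ⟨x, hx⟩ := x
  obtain ⟨y, hy⟩ := y
  simp only
  have hxY : x ∉ Y := fun h => Finset.disjoint_left.1 hXY hx h
  have hyX : y ∉ X := fun h => Finset.disjoint_left.1 hXY h hy
  have hxy : x ≠ y := by
    rintro rfl
    exact hxY hy
  have hdis : Disjoint (X.erase x) (Y.erase y) :=
    Finset.disjoint_of_subset_left (Finset.erase_subset _ _)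
      (Finset.disjoint_of_subset_right (Finset.erase_subset _ _) hXY)
  set I : Finset V := X.erase x ∪ Y.erase y with hI
  have hIcard : I.card + 2 = X.card + Y.card := by
    rw [hI, Finset.card_union_of_disjoint hdis, Finset.card_erase_of_mem hx,
      Finset.card_erase_of_mem hy]
    have h1 : 1 ≤ X.card := Finset.card_pos.2 ⟨x, hx⟩
    have h2 : 1 ≤ Y.card := Finset.card_pos.2 ⟨y, hy⟩
    omega
  let s : I → ZMod m := fun z => (if z.1 ∈ Y then w s(x, z.1) else w s(y, z.1)) - w s(x, y)
  obtain ⟨K, g, hg, hK⟩ := pairing s (m - 1) (by rw [ZMod.card]; omega)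
    (by rw [Fintype.card_coe]; omega) (by
      intro T hT hsum
      have hZx : x ∉ T.map (Function.Embedding.subtype _) := by
        intro h
        rw [Finset.mem_map] at h
        obtain ⟨z, _, hz⟩ := h
        have h1 : z.1 = x := hz
        have h2 := z.2
        rw [h1, hI, Finset.mem_union, Finset.mem_erase, Finset.mem_erase] at h2
        rcases h2 with h2 | h2
        · exact h2.1 rfl
        · exact hxY h2.2
      have hZy : y ∉ T.map (Function.Embedding.subtype _) := by
        intro h
        rw [Finset.mem_map] at h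
        obtain ⟨z, _, hz⟩ := h
        have h1 : z.1 = y := hz
        have h2 := z.2
        rw [h1, hI, Finset.mem_union, Finset.mem_erase, Finset.mem_erase] at h2
        rcases h2 with h2 | h2
        · exact hyX h2.2
        · exact h2.1 rfl
      have hmemI : ∀ z ∈ T.map (Function.Embedding.subtype _), z ∈ I := by
        intro z hz
        rw [Finset.mem_map] at hz
        obtain ⟨z', _, hz'⟩ := hz
        rw [← hz']
        exact z'.2
      obtain ⟨U, hU1, -, hU3⟩ := dstar (W := fun a b => w s(a, b)) hxy (hgood x hx y hy)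
        (fun z => z ∈ Y) (T.map (Function.Embedding.subtype _)) hZx hZy
        (fun z _ hz => hgood x hx z hz)
        (fun z hz hzY => by
          have h1 := hmemI z hz
          rw [hI, Finset.mem_union, Finset.mem_erase, Finset.mem_erase] at h1
          rcases h1 with h1 | h1
          · exact hsymm _ _ (hgood z h1.2 y hy)
          · exact absurd h1.2 hzY)
      rw [Finset.card_map, hT] at hU1
      apply hno U (by omega)
      have h0 : w s(x, y) + ∑ z ∈ T.map (Function.Embedding.subtype _),
          (if z ∈ Y then w s(x, z) else w s(y, z)) = 0 := by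
        rw [Finset.sum_map]
        have e1 : ∑ z ∈ T, s z = ∑ z ∈ T, (if z.1 ∈ Y then w s(x, z.1) else w s(y, z.1)) -
            (m - 1 : ℕ) * w s(x, y) := by
          rw [Finset.sum_sub_distrib, Finset.sum_const, hT, nsmul_eq_mul]
        rw [e1] at hsum
        have e2 : ((m - 1 : ℕ) : ZMod m) = -1 := by
          rw [Nat.cast_sub hm, ZMod.natCast_self]
          simp
        rw [e2] at hsum
        have e3 : ∑ z ∈ T, (if z.1 ∈ Y then w s(x, z.1) else w s(y, z.1)) = - w s(x, y) := by
          linear_combination hsum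
        show w s(x, y) + ∑ z ∈ T, (if z.1 ∈ Y then w s(x, z.1) else w s(y, z.1)) = 0
        rw [e3]
        ring
      rw [← h0]
      exact hU3)
  rw [ZMod.card] at hK
  refine ⟨K, g + w s(x, y), ?_, ?_⟩
  · intro h
    apply hg
    have := K.neg_mem h
    rwa [show -(w s(x, y) - (g + w s(x, y))) = g by ring] at this
  · rw [mul_comm]
    refine le_trans (Nat.mul_le_mul_right _ ?_) hK
    -- translate to finsets of V
    set AY : Finset V := Y.filter fun z => w s(x, z) - (g + w s(x, y)) ∉ K with hAY
    set AX : Finset V := X.filter fun z => w s(z, y) - (g + w s(x, y)) ∉ K with hAX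
    have e1 : eta (fun y' : Y => w s(x, y'.1)) K (g + w s(x, y)) = AY.card := by
      rw [eta_eq, hAY, ← Finset.card_map (Function.Embedding.subtype _)]
      congr 1
      ext z
      rw [Finset.mem_map, Finset.mem_filter]
      constructor
      · rintro ⟨z', hz', rfl⟩
        rw [Finset.mem_filter] at hz'
        exact ⟨z'.2, hz'.2⟩
      · rintro ⟨h1, h2⟩
        exact ⟨⟨z, h1⟩, by rw [Finset.mem_filter]; exact ⟨Finset.mem_univ _, h2⟩, rfl⟩
    have e2 : eta (fun x' : X => w s(x'.1, y)) K (g + w s(x, y)) = AX.card := by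
      rw [eta_eq, hAX, ← Finset.card_map (Function.Embedding.subtype _)]
      congr 1
      ext z
      rw [Finset.mem_map, Finset.mem_filter]
      constructor
      · rintro ⟨z', hz', rfl⟩
        rw [Finset.mem_filter] at hz'
        exact ⟨z'.2, hz'.2⟩
      · rintro ⟨h1, h2⟩
        exact ⟨⟨z, h1⟩, by rw [Finset.mem_filter]; exact ⟨Finset.mem_univ _, h2⟩, rfl⟩
    rw [e1, e2]
    have e3 : (AY.erase y ∪ AX.erase x).card ≤ Nat.card {i // s i - g ∉ K} := by
      rw [Nat.card_eq_fintype_card, Fintype.card_subtype,
        ← Finset.card_map (Function.Embedding.subtype _)]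
      apply Finset.card_le_card
      intro z hz
      rw [Finset.mem_map]
      rw [Finset.mem_union, Finset.mem_erase, Finset.mem_erase, hAY, hAX, Finset.mem_filter,
        Finset.mem_filter] at hz
      rcases hz with ⟨h1, h2, h3⟩ | ⟨h1, h2, h3⟩
      · have hzI : z ∈ I := by
          rw [hI, Finset.mem_union, Finset.mem_erase, Finset.mem_erase]
          exact Or.inr ⟨h1, h2⟩
        refine ⟨⟨z, hzI⟩, ?_, rfl⟩
        rw [Finset.mem_filter]
        refine ⟨Finset.mem_univ _, ?_⟩
        show (if z ∈ Y then w s(x, z) else w s(y, z)) - w s(x, y) - g ∉ K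
        rw [if_pos h2]
        intro h
        apply h3
        rwa [show w s(x, z) - (g + w s(x, y)) = w s(x, z) - w s(x, y) - g by ring]
      · have hzI : z ∈ I := by
          rw [hI, Finset.mem_union, Finset.mem_erase, Finset.mem_erase]
          exact Or.inl ⟨h1, h2⟩
        have hzY : z ∉ Y := fun h => Finset.disjoint_left.1 hXY h2 h
        refine ⟨⟨z, hzI⟩, ?_, rfl⟩
        rw [Finset.mem_filter]
        refine ⟨Finset.mem_univ _, ?_⟩
        show (if z ∈ Y then w s(x, z) else w s(y, z)) - w s(x, y) - g ∉ K
        rw [if_neg hzY]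
        intro h
        apply h3
        rwa [show w s(z, y) - (g + w s(x, y)) = w s(y, z) - w s(x, y) - g by
          rw [Sym2.eq_swap (a := z)]; ring]
    have e4 : Disjoint (AY.erase y) (AX.erase x) := by
      rw [Finset.disjoint_left]
      intro z h1 h2
      have h3 := Finset.mem_filter.1 (Finset.mem_of_mem_erase h1)
      have h4 := Finset.mem_filter.1 (Finset.mem_of_mem_erase h2)
      exact Finset.disjoint_left.1 hXY h4.1 h3.1
    rw [Finset.card_union_of_disjoint e4] at e3
    have e5 := Finset.pred_card_le_card_erase (s := AY) (a := y)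
    have e6 := Finset.pred_card_le_card_erase (s := AX) (a := x)
    omega

theorem bip (hsymm : ∀ a b, good a b → good b a)
    (hno : ∀ U : Finset V, U.card = m + 1 → ¬ Grow good (fun a b => w s(a, b)) U 0)
    {X Y : Finset V} (hXY : Disjoint X Y) (hcard : X.card + Y.card = 2 * m)
    (hX : X.Nonempty) (hY : Y.Nonempty)
    (hgood : ∀ x ∈ X, ∀ y ∈ Y, good x y) :
    ∃ a b : ZMod m, a ≠ b ∧
      (∀ x ∈ X, 2 * (Y.filter fun y => w s(x, y) = a).card = Y.card ∧
        2 * (Y.filter fun y => w s(x, y) = b).card = Y.card) ∧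
      (∀ y ∈ Y, 2 * (X.filter fun x => w s(x, y) = a).card = X.card ∧
        2 * (X.filter fun x => w s(x, y) = b).card = X.card) := by
  classical
  have : Nonempty X := hX.to_subtype
  have : Nonempty Y := hY.to_subtype
  obtain ⟨a, b, hab, h1, h2⟩ := structure_thm (X := X) (Y := Y)
    (fun x y => w s(x.1, y.1)) m (by rw [Fintype.card_coe, Fintype.card_coe]; exact hcard)
    (fun x y => hbad hsymm hno hXY hcard.ge hgood x y)
  have e1 : ∀ (x : V) (u : ZMod m), num (fun y : Y => w s(x, y.1)) u =
      (Y.filter fun y => w s(x, y) = u).card := by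
    intro x u
    rw [num_eq, ← Finset.card_map (Function.Embedding.subtype _)]
    congr 1
    ext z
    rw [Finset.mem_map, Finset.mem_filter]
    constructor
    · rintro ⟨z', hz', rfl⟩
      simp only [Finset.mem_filter, Finset.mem_univ, true_and] at hz'
      exact ⟨z'.2, hz'⟩
    · rintro ⟨h1, h2⟩
      refine ⟨⟨z, h1⟩, ?_, rfl⟩
      simp only [Finset.mem_filter, Finset.mem_univ, true_and]
      exact h2
  have e2 : ∀ (y : V) (u : ZMod m), num (fun x : X => w s(x.1, y)) u =
      (X.filter fun x => w s(x, y) = u).card := by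
    intro x u
    rw [num_eq, ← Finset.card_map (Function.Embedding.subtype _)]
    congr 1
    ext z
    rw [Finset.mem_map, Finset.mem_filter]
    constructor
    · rintro ⟨z', hz', rfl⟩
      simp only [Finset.mem_filter, Finset.mem_univ, true_and] at hz'
      exact ⟨z'.2, hz'⟩
    · rintro ⟨h1, h2⟩
      refine ⟨⟨z, h1⟩, ?_, rfl⟩
      simp only [Finset.mem_filter, Finset.mem_univ, true_and]
      exact h2
  refine ⟨a, b, hab, ?_, ?_⟩
  · intro x hx
    have := h1 ⟨x, hx⟩
    rwa [e1, e1, Fintype.card_coe] at this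
  · intro y hy
    have := h2 ⟨y, hy⟩
    rwa [e2, e2, Fintype.card_coe] at this

end Pool.Agent.Helper65.ZR
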