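import Mathlib
import Pool.Agent.Helper65.ZR.Bip

set_option autoImplicit false

/-!
The upper bound: every mixed colouring of a large complete graph has a good tree.
-/

namespace Pool.Agent.Helper65.ZR

open Finset

set_option linter.unusedSectionVars false

variable {V : Type*} [DecidableEq V]

lemma comp_grow (H : SimpleGraph V) (v0 : V) (S : Finset V)
    (hS : ∀ u, u ∈ S ↔ H.Reachable v0 u) (k : ℕ) (hk : k + 1 ≤ S.card) :
    ∃ U : Finset V, U.card = k + 1 ∧ (∀ u ∈ U, H.Reachable v0 u) ∧ v0 ∈ U ∧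
      Grow H.Adj (fun _ _ => (0 : ℕ)) U 0 := by
  induction k with
  | zero =>
    refine ⟨{v0}, Finset.card_singleton _, ?_, Finset.mem_singleton_self _, Grow.single v0⟩
    intro u hu
    rw [Finset.mem_singleton] at hu
    rw [hu]
  | succ k ih =>
    obtain ⟨U, hU1, hU2, hU3, hU4⟩ := ih (by omega)
    obtain ⟨u, hu, huU⟩ : ∃ u ∈ S, u ∉ U := by
      by_contra hcon
      push Not at hcon
      have := Finset.card_le_card (show S ⊆ U from fun u hu => hcon u hu)
      omega
    rw [hS] at hu
    obtain ⟨p⟩ := hu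
    obtain ⟨d, -, hd1, hd2⟩ := p.exists_boundary_dart (U : Set V) hU3 huU
    have hd1' : d.fst ∈ U := hd1
    have hd2' : d.snd ∉ U := hd2
    refine ⟨insert d.snd U, ?_, ?_, Finset.mem_insert_of_mem hU3, ?_⟩
    · rw [Finset.card_insert_of_notMem hd2', hU1]
    · intro z hz
      rw [Finset.mem_insert] at hz
      rcases hz with rfl | hz
      · exact (hU2 _ hd1').trans d.adj.reachable
      · exact hU2 z hz
    · exact Grow.step U 0 d.fst d.snd hU4 hd1' hd2' d.adj

lemma halves_mem {α : Type*} [DecidableEq α] {S : Finset V} {h : V → α} {a b : α} (hab : a ≠ b)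
    (ha : 2 * (S.filter fun z => h z = a).card = S.card)
    (hb : 2 * (S.filter fun z => h z = b).card = S.card) : ∀ z ∈ S, h z = a ∨ h z = b := by
  have hd : Disjoint (S.filter fun z => h z = a) (S.filter fun z => h z = b) := by
    rw [Finset.disjoint_left]
    intro z hz hz'
    rw [Finset.mem_filter] at hz hz'
    exact hab (hz.2.symm.trans hz'.2)
  have h1 := Finset.card_union_of_disjoint hd
  have h2 : (S.filter fun z => h z = a) ∪ (S.filter fun z => h z = b) = S := by
    apply Finset.eq_of_subset_of_card_le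
    · exact Finset.union_subset (Finset.filter_subset _ _) (Finset.filter_subset _ _)
    · omega
  intro z hz
  rw [← h2, Finset.mem_union, Finset.mem_filter, Finset.mem_filter] at hz
  rcases hz with hz | hz
  · exact Or.inl hz.2
  · exact Or.inr hz.2

lemma halves_ex {α : Type*} [DecidableEq α] {S : Finset V} (hS : S.Nonempty) {h : V → α} {a : α}
    (ha : 2 * (S.filter fun z => h z = a).card = S.card) : ∃ z ∈ S, h z = a := by
  have h1 : 0 < S.card := Finset.card_pos.2 hS
  have h2 : (S.filter fun z => h z = a).Nonempty := by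
    rw [← Finset.card_pos]
    omega
  obtain ⟨z, hz⟩ := h2
  rw [Finset.mem_filter] at hz
  exact ⟨z, hz.1, hz.2⟩

variable {m : ℕ} [NeZero m] {good : V → V → Prop} {w : Sym2 V → ZMod m}

lemma star_aux [Fintype V] (hno : ∀ U : Finset V, U.card = m + 1 → ¬ Grow good (fun a b => w s(a, b)) U 0)
    (hV : Fintype.card V = 2 * m) {A B : Finset V}
    (hgA : ∀ x ∈ A, ∀ y, y ∉ A → good x y) (hgB : ∀ x ∈ B, ∀ y, y ∉ B → good x y)
    (hAB : Disjoint A B) {x y z : V} (hx : x ∈ A) (hy : y ∈ B) (hzA : z ∉ A) (hzB : z ∉ B)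
    {e : ZMod m} (hxy : w s(x, y) = e) (hyz : w s(y, z) = e)
    (h1 : 2 * (Aᶜ.filter fun z => w s(x, z) = e).card = Aᶜ.card)
    (h2 : 2 * (A.filter fun x => w s(x, y) = e).card = A.card) : w s(x, z) = e := by
  by_contra hxz
  have hm : 1 ≤ m := Nat.one_le_iff_ne_zero.2 (NeZero.ne m)
  have hyA : y ∉ A := fun h => Finset.disjoint_left.1 hAB h hy
  have hxB : x ∉ B := fun h => Finset.disjoint_left.1 hAB hx h
  have hxy' : x ≠ y := by
    rintro rfl
    exact hyA hx
  have hzx : z ≠ x := by
    rintro rfl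
    exact hzA hx
  have hzy : z ≠ y := by
    rintro rfl
    exact hzB hy
  set Z1 : Finset V := (Aᶜ.filter fun z => w s(x, z) = e).erase y with hZ1
  set Z2 : Finset V := (A.filter fun x => w s(x, y) = e).erase x with hZ2
  have mem1 : ∀ u, u ∈ Z1 ↔ u ≠ y ∧ u ∉ A ∧ w s(x, u) = e := by
    intro u
    rw [hZ1, Finset.mem_erase, Finset.mem_filter, Finset.mem_compl]
  have mem2 : ∀ u, u ∈ Z2 ↔ u ≠ x ∧ u ∈ A ∧ w s(u, y) = e := by
    intro u
    rw [hZ2, Finset.mem_erase, Finset.mem_filter]
  have hd : Disjoint Z1 Z2 := by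
    rw [Finset.disjoint_left]
    intro u hu hu'
    exact ((mem1 u).1 hu).2.1 ((mem2 u).1 hu').2.1
  have hz12 : z ∉ Z1 ∪ Z2 := by
    rw [Finset.mem_union, mem1, mem2]
    rintro (h | h)
    · exact hxz h.2.2
    · exact hzA h.2.1
  set Z : Finset V := insert z (Z1 ∪ Z2) with hZ
  have c1 : Z1.card + 1 = (Aᶜ.filter fun z => w s(x, z) = e).card := by
    rw [hZ1]
    exact Finset.card_erase_add_one (by
      rw [Finset.mem_filter, Finset.mem_compl]; exact ⟨hyA, hxy⟩)
  have c2 : Z2.card + 1 = (A.filter fun x => w s(x, y) = e).card := by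
    rw [hZ2]
    exact Finset.card_erase_add_one (by rw [Finset.mem_filter]; exact ⟨hx, hxy⟩)
  have c3 : A.card + Aᶜ.card = 2 * m := by
    rw [Finset.card_add_card_compl, hV]
  have hZcard : Z.card = m - 1 := by
    rw [hZ, Finset.card_insert_of_notMem hz12, Finset.card_union_of_disjoint hd]
    omega
  have hxZ : x ∉ Z := by
    rw [hZ, Finset.mem_insert, Finset.mem_union, mem1, mem2]
    rintro (h | h | h)
    · exact hzx h.symm
    · exact h.2.1 hx
    · exact h.1 rfl
  have hyZ : y ∉ Z := by
    rw [hZ, Finset.mem_insert, Finset.mem_union, mem1, mem2]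
    rintro (h | h | h)
    · exact hzy h.symm
    · exact h.1 rfl
    · exact hyA h.2.1
  obtain ⟨U, hU1, -, hU3⟩ := dstar (W := fun a b => w s(a, b)) hxy' (hgA x hx y hyA)
    (fun u => u ∉ A ∧ u ≠ z) Z hxZ hyZ (fun u _ hu => hgA x hx u hu.1) (by
      intro u hu hatt
      rw [hZ, Finset.mem_insert, Finset.mem_union, mem1, mem2] at hu
      rcases hu with h | h | h
      · rw [h]
        exact hgB y hy z hzB
      · exfalso
        apply hatt
        refine ⟨h.2.1, ?_⟩
        rintro rfl
        exact hxz h.2.2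
      · exact hgB y hy u (fun h' => Finset.disjoint_left.1 hAB h.2.1 h'))
  apply hno U (by omega)
  have hsum : w s(x, y) + ∑ u ∈ Z, (if u ∉ A ∧ u ≠ z then w s(x, u) else w s(y, u)) = 0 := by
    have e1 : ∀ u ∈ Z, (if u ∉ A ∧ u ≠ z then w s(x, u) else w s(y, u)) = e := by
      intro u hu
      rw [hZ, Finset.mem_insert, Finset.mem_union, mem1, mem2] at hu
      rcases hu with h | h | h
      · rw [if_neg (by rw [h]; simp), h]
        exact hyz
      · rw [if_pos ⟨h.2.1, by rintro rfl; exact hxz h.2.2⟩]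
        exact h.2.2
      · rw [if_neg (by intro h'; exact h'.1 h.2.1), Sym2.eq_swap]
        exact h.2.2
    rw [Finset.sum_congr rfl e1, Finset.sum_const, hZcard, hxy, nsmul_eq_mul, Nat.cast_sub hm,
      ZMod.natCast_self]
    push_cast
    ring
  rw [← hsum]
  exact hU3

theorem upper_core [Fintype V] (c : Sym2 V → Option (ZMod m))
    (hV : Fintype.card V = if Even m then 2 * m + 1 else 2 * m) :
    (∃ U : Finset V, U.card = m + 1 ∧
      Grow (fun a b => a ≠ b ∧ c s(a, b) = none) (fun _ _ => (0 : ℕ)) U 0) ∨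
    (∃ U : Finset V, U.card = m + 1 ∧
      Grow (fun a b => a ≠ b ∧ c s(a, b) ≠ none) (fun a b => (c s(a, b)).getD 0) U 0) := by
  classical
  have hm : 1 ≤ m := Nat.one_le_iff_ne_zero.2 (NeZero.ne m)
  by_contra hcon
  push Not at hcon
  obtain ⟨hinf, hno⟩ := hcon
  set good : V → V → Prop := fun a b => a ≠ b ∧ c s(a, b) ≠ none with hgood
  set w : Sym2 V → ZMod m := fun e => (c e).getD 0 with hw
  have hsymm : ∀ a b, good a b → good b a := by
    intro a b h
    refine ⟨h.1.symm, ?_⟩
    rw [Sym2.eq_swap]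
    exact h.2
  have hno' : ∀ U : Finset V, U.card = m + 1 → ¬ Grow good (fun a b => w s(a, b)) U 0 := hno
  let H : SimpleGraph V :=
    { Adj := fun a b => a ≠ b ∧ c s(a, b) = none
      symm := ⟨fun a b h => ⟨h.1.symm, by rw [Sym2.eq_swap]; exact h.2⟩⟩
      loopless := ⟨fun a h => h.1 rfl⟩ }
  let comp : V → Finset V := fun v => Finset.univ.filter fun u => H.Reachable v u
  have hcomp_mem : ∀ v u, u ∈ comp v ↔ H.Reachable v u := by
    intro v u
    simp [comp]
  have hself : ∀ v, v ∈ comp v := fun v => (hcomp_mem v v).2 (SimpleGraph.Reachable.refl v)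
  have hcard : ∀ v, (comp v).card ≤ m := by
    intro v
    by_contra hc
    obtain ⟨U, hU1, -, -, hU2⟩ := comp_grow H v (comp v) (hcomp_mem v) m (by omega)
    exact hinf U hU1 hU2
  have hcg : ∀ v, ∀ x ∈ comp v, ∀ y, y ∉ comp v → good x y := by
    intro v x hx y hy
    have hxy : x ≠ y := by
      rintro rfl
      exact hy hx
    refine ⟨hxy, fun h => hy ?_⟩
    rw [hcomp_mem] at hx ⊢
    exact hx.trans (SimpleGraph.Adj.reachable (show H.Adj x y from ⟨hxy, h⟩))
  have hcardpos : ∀ v, 1 ≤ (comp v).card := fun v => Finset.card_pos.2 ⟨v, hself v⟩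
  have hNV : 2 * m ≤ Fintype.card V := by
    rw [hV]
    split_ifs <;> omega
  obtain ⟨v1⟩ : Nonempty V := by
    rw [← Fintype.card_pos_iff]
    omega
  have hsumc : ∀ v, (comp v).card + (comp v)ᶜ.card = Fintype.card V := fun v =>
    Finset.card_add_card_compl _
  by_cases hev : Even m
  · -- n = 2 m + 1
    rw [if_pos hev] at hV
    have h1 := hcard v1
    have h2 := hcardpos v1
    have h3 := hsumc v1
    by_cases hX : Even (comp v1).card
    · obtain ⟨q, hq⟩ := hX
      obtain ⟨x, hx⟩ : ((comp v1).erase v1).Nonempty := by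
        rw [← Finset.card_pos, Finset.card_erase_of_mem (hself v1)]
        omega
      obtain ⟨y, hy⟩ : ((comp v1)ᶜ).Nonempty := by
        rw [← Finset.card_pos]
        omega
      obtain ⟨a, b, -, hab, -⟩ := bip hsymm hno' (X := (comp v1).erase v1) (Y := (comp v1)ᶜ)
        (Finset.disjoint_of_subset_left (Finset.erase_subset _ _) disjoint_compl_right)
        (by rw [Finset.card_erase_of_mem (hself v1)]; omega) ⟨x, hx⟩ ⟨y, hy⟩
        (fun x hx y hy => hcg v1 x (Finset.mem_of_mem_erase hx) y (Finset.mem_compl.1 hy))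
      have := (hab x hx).1
      omega
    · rw [Nat.not_even_iff_odd] at hX
      obtain ⟨q, hq⟩ := hX
      obtain ⟨y0, hy0⟩ : ((comp v1)ᶜ).Nonempty := by
        rw [← Finset.card_pos]
        omega
      obtain ⟨y, hy⟩ : (((comp v1)ᶜ).erase y0).Nonempty := by
        rw [← Finset.card_pos, Finset.card_erase_of_mem hy0]
        omega
      obtain ⟨a, b, -, hab, -⟩ := bip hsymm hno' (X := comp v1) (Y := ((comp v1)ᶜ).erase y0)
        (Finset.disjoint_of_subset_right (Finset.erase_subset _ _) disjoint_compl_right)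
        (by rw [Finset.card_erase_of_mem hy0]; omega) ⟨v1, hself v1⟩ ⟨y, hy⟩
        (fun x hx y hy => hcg v1 x hx y (Finset.mem_compl.1 (Finset.mem_of_mem_erase hy)))
      have h4 := (hab v1 (hself v1)).1
      rw [Finset.card_erase_of_mem hy0] at h4
      omega
  · -- n = 2 m, m odd
    rw [if_neg hev] at hV
    rw [Nat.not_even_iff_odd] at hev
    obtain ⟨q0, hq0⟩ := hev
    have hbip : ∀ v, ∃ a b : ZMod m, a ≠ b ∧
      (∀ x ∈ comp v, 2 * ((comp v)ᶜ.filter fun y => w s(x, y) = a).card = (comp v)ᶜ.card ∧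
        2 * ((comp v)ᶜ.filter fun y => w s(x, y) = b).card = (comp v)ᶜ.card) ∧
      (∀ y ∈ (comp v)ᶜ, 2 * ((comp v).filter fun x => w s(x, y) = a).card = (comp v).card ∧
        2 * ((comp v).filter fun x => w s(x, y) = b).card = (comp v).card) := by
      intro v
      have h1 := hcard v
      have h3 := hsumc v
      obtain ⟨y, hy⟩ : ((comp v)ᶜ).Nonempty := by
        rw [← Finset.card_pos]
        omega
      exact bip hsymm hno' (X := comp v) (Y := (comp v)ᶜ) disjoint_compl_right
        (by omega) ⟨v, hself v⟩ ⟨y, hy⟩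
        (fun x hx y hy => hcg v x hx y (Finset.mem_compl.1 hy))
    -- all components are even
    have heven : ∀ v, (comp v).card + 1 ≤ m := by
      intro v
      obtain ⟨a, b, -, h1, -⟩ := hbip v
      have h2 := (h1 v (hself v)).1
      have h3 := hcard v
      have h4 := hsumc v
      omega
    obtain ⟨v2, hv2⟩ : ((comp v1)ᶜ).Nonempty := by
      rw [← Finset.card_pos]
      have := hsumc v1
      have := heven v1
      omega
    have hd12 : Disjoint (comp v1) (comp v2) := by
      rw [Finset.disjoint_left]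
      intro u hu hu'
      rw [hcomp_mem] at hu hu'
      apply Finset.mem_compl.1 hv2
      rw [hcomp_mem]
      exact hu.trans hu'.symm
    obtain ⟨z, hz⟩ : ((comp v1 ∪ comp v2)ᶜ).Nonempty := by
      rw [← Finset.card_pos]
      have h1 := Finset.card_add_card_compl (comp v1 ∪ comp v2)
      have h2 := Finset.card_union_le (comp v1) (comp v2)
      have := heven v1
      have := heven v2
      omega
    rw [Finset.mem_compl, Finset.mem_union] at hz
    push Not at hz
    obtain ⟨a, b, hab, hA, hA'⟩ := hbip v1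
    obtain ⟨a2, b2, hab2, hB, hB'⟩ := hbip v2
    -- the two colours are the same
    have hv12 : ∀ x ∈ comp v1, x ∈ (comp v2)ᶜ := fun x hx =>
      Finset.mem_compl.2 fun h => Finset.disjoint_left.1 hd12 hx h
    have hv21 : ∀ x ∈ comp v2, x ∈ (comp v1)ᶜ := fun x hx =>
      Finset.mem_compl.2 fun h => Finset.disjoint_left.1 hd12 h hx
    have hcol : ∀ e : ZMod m, (e = a ∨ e = b) → e = a2 ∨ e = b2 := by
      intro e he
      have h1 : 2 * ((comp v1).filter fun x => w s(x, v2) = e).card = (comp v1).card := by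
        rcases he with rfl | rfl
        · exact (hA' v2 hv2).1
        · exact (hA' v2 hv2).2
      obtain ⟨x, hx, hxe⟩ := halves_ex ⟨v1, hself v1⟩ h1
      have h2 := halves_mem hab2 (hB v2 (hself v2)).1 (hB v2 (hself v2)).2 x (hv12 x hx)
      rw [Sym2.eq_swap, hxe] at h2
      exact h2
    have halfA : ∀ e : ZMod m, (e = a ∨ e = b) → ∀ x ∈ comp v1,
        2 * ((comp v1)ᶜ.filter fun y => w s(x, y) = e).card = (comp v1)ᶜ.card := by
      intro e he x hx
      rcases he with rfl | rfl
      · exact (hA x hx).1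
      · exact (hA x hx).2
    have halfA' : ∀ e : ZMod m, (e = a ∨ e = b) → ∀ y ∈ (comp v1)ᶜ,
        2 * ((comp v1).filter fun x => w s(x, y) = e).card = (comp v1).card := by
      intro e he x hx
      rcases he with rfl | rfl
      · exact (hA' x hx).1
      · exact (hA' x hx).2
    have halfB : ∀ e : ZMod m, (e = a ∨ e = b) → ∀ x ∈ comp v2,
        2 * ((comp v2)ᶜ.filter fun y => w s(x, y) = e).card = (comp v2)ᶜ.card := by
      intro e he x hx
      rcases hcol e he with rfl | rfl
      · exact (hB x hx).1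
      · exact (hB x hx).2
    have halfB' : ∀ e : ZMod m, (e = a ∨ e = b) → ∀ y ∈ (comp v2)ᶜ,
        2 * ((comp v2).filter fun x => w s(x, y) = e).card = (comp v2).card := by
      intro e he x hx
      rcases hcol e he with rfl | rfl
      · exact (hB' x hx).1
      · exact (hB' x hx).2
    have hz1 : z ∈ (comp v1)ᶜ := Finset.mem_compl.2 hz.1
    have hz2 : z ∈ (comp v2)ᶜ := Finset.mem_compl.2 hz.2
    have hxz : ∀ x ∈ comp v1, w s(x, z) = a ∨ w s(x, z) = b := fun x hx =>
      halves_mem hab (hA x hx).1 (hA x hx).2 z hz1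
    have hyz : w s(v2, z) = a ∨ w s(v2, z) = b := halves_mem hab
      (halfB a (Or.inl rfl) v2 (hself v2)) (halfB b (Or.inr rfl) v2 (hself v2)) z hz2
    have hkey : ∀ x ∈ comp v1, w s(x, z) = w s(v2, z) := by
      intro x hx
      have he : w s(x, v2) = a ∨ w s(x, v2) = b := halves_mem hab (hA x hx).1 (hA x hx).2 v2 hv2
      have s1 : w s(v2, z) = w s(x, v2) → w s(x, z) = w s(x, v2) := fun h =>
        star_aux hno' hV (hcg v1) (hcg v2) hd12 hx (hself v2) hz.1 hz.2 rfl h
          (halfA _ he x hx) (halfA' _ he v2 hv2)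
      have s2 : w s(x, z) = w s(x, v2) → w s(v2, z) = w s(x, v2) := fun h =>
        star_aux hno' hV (hcg v2) (hcg v1) hd12.symm (hself v2) hx hz.2 hz.1
          (by rw [Sym2.eq_swap]) h (halfB _ he v2 (hself v2)) (halfB' _ he x (hv12 x hx))
      by_cases h : w s(v2, z) = w s(x, v2)
      · rw [s1 h, h]
      · have h' : w s(x, z) ≠ w s(x, v2) := fun h' => h (s2 h')
        rcases he with he | he <;> rcases hxz x hx with h1 | h1 <;> rcases hyz with h2 | h2
        · rw [h1, h2]
        · exact absurd (h1.trans he.symm) h'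
        · exact absurd (h2.trans he.symm) h
        · rw [h1, h2]
        · rw [h1, h2]
        · exact absurd (h2.trans he.symm) h
        · exact absurd (h1.trans he.symm) h'
        · rw [h1, h2]
    have hfin := halfA' _ hyz z hz1
    have hall : ((comp v1).filter fun x => w s(x, z) = w s(v2, z)) = comp v1 :=
      Finset.filter_true_of_mem hkey
    rw [hall] at hfin
    have := hcardpos v1
    omega

end Pool.Agent.Helper65.ZR
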